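import Pool.Graph.R_seed8.Y45.MON.Defs
import Pool.Graph.R_seed8.TH54.BU.Close

/-!
# Closed lifts of polygons, with a threshold depending on the line

`closeV` is the library's `Pool.Agent.Y430.MON.close`, the threshold `A` depending on the type of
the line. `close4` is the special case of a quadrangle with two rigid sides.
-/

set_option autoImplicit false

namespace Pool.Agent.H319.FS

open Pool.Agent.TH54.BU Pool.Agent.Y45.MON

variable {G : Type} [Group G] {H : GH G} {c θ T : ℕ} (L : LS H c θ T)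

theorem closeV {n : L.ι → ℕ} {M : Subgroup G} (F : Fv L n M) {A : L.ι → ℕ} {k : ℕ}
    (hn : ∀ i, k * A i + 12 * L.thr ≤ n i) (hn2 : ∀ i, 24 * L.thr + T * (2 * c + 1) ≤ n i)
    (Rel : ℕ → G → G → Prop)
    (hM : ∀ j < k, ∀ m ∈ M, ∀ a b, Rel j a b → Rel j (m * a) (m * b))
    (hrot : ∀ j < k, ∀ a b, Rel j a b → ∀ (i : L.ι) (u : G), (A i : ℤ) ≤ |L.s i u a b| →
      ∀ l : ℤ, Rel j a (L.rt i u (n i * l) * b))
    (P : ℕ → G) (hP : ∀ j < k, Rel j (P j) (P (j + 1))) (hend : ∃ m ∈ M, P k = m * P 0) :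
    ∃ P' : ℕ → G, (∀ j < k, Rel j (P' j) (P' (j + 1))) ∧ P' k = P' 0 ∧
      ∀ j ≤ k, ∃ m ∈ M, P' j = m * P j := by
  obtain ⟨P', ⟨hP1, hP2⟩, hmin⟩ := cl_min
    (fun P' : ℕ → G => (∀ j < k, Rel j (P' j) (P' (j + 1))) ∧ ∀ j ≤ k, ∃ m ∈ M, P' j = m * P j)
    (fun P' => H.d (P' 0) (P' k)) ⟨P, hP, fun j _ => ⟨1, M.one_mem, (one_mul _).symm⟩⟩
  refine ⟨P', hP1, ?_, hP2⟩
  by_contra hne
  -- the end points differ by an element of `M`
  obtain ⟨m0, hm0, e0⟩ := hend
  obtain ⟨m1, hm1, e1⟩ := hP2 k le_rfl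
  obtain ⟨m2, hm2, e2⟩ := hP2 0 (Nat.zero_le _)
  have em : P' k = (m1 * m0 * m2⁻¹) * P' 0 := by
    rw [e1, e2, e0]
    group
  have hm : m1 * m0 * m2⁻¹ ∈ M := M.mul_mem (M.mul_mem hm1 hm0) (M.inv_mem hm2)
  have hm1' : m1 * m0 * m2⁻¹ ≠ 1 := by
    intro h
    rw [h, one_mul] at em
    exact hne em
  obtain ⟨i, u, hgr⟩ := F.gr _ hm hm1' (P' 0)
  rw [← em] at hgr
  have hk0 : 1 ≤ k := by
    rcases Nat.eq_zero_or_pos k with h | h
    · rw [h] at hne
      exact absurd rfl hne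
    · exact h
  -- a large side
  obtain ⟨j, hj, hAj⟩ : ∃ j < k, (A i : ℤ) ≤ |L.s i u (P' j) (P' (j + 1))| := by
    by_contra hcon
    push Not at hcon
    have key : ∀ t ≤ k, |L.s i u (P' 0) (P' t)| + t ≤ t * (A i : ℤ) := by
      intro t
      induction t with
      | zero => intro _; rw [L.wf_s_self]; simp
      | succ t ih =>
        intro ht
        have i1 := ih (by omega)
        have i2 := hcon t (by omega)
        have i3 := abs_add_le (L.s i u (P' 0) (P' t)) (L.s i u (P' t) (P' (t + 1)))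
        rw [L.wf_s_add] at i3
        push_cast
        rw [add_mul, one_mul]
        linarith
    have h1 := key k le_rfl
    have h2 : (k : ℤ) * A i + 12 * L.thr ≤ n i := by exact_mod_cast hn i
    have h3 : (1 : ℤ) ≤ k := by exact_mod_cast hk0
    linarith
  -- shorten
  have hn2i := hn2 i
  obtain ⟨l, hl⟩ := L.shorten 0 (n := n i) (i := i) (u := u) (p := P' 0) (q := P' k)
    (by rw [add_zero]; omega) (by
      have h2 : (24 : ℤ) * L.thr + T * (2 * c + 1) ≤ n i := by exact_mod_cast hn2i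
      push_cast
      rw [add_zero]
      linarith)
  rw [add_zero] at hl
  have hrM : L.rt i u (n i * l) ∈ M := F.rot i u l
  have hlt := hmin (fun e => if e ≤ j then P' e else L.rt i u (n i * l) * P' e) ⟨?_, ?_⟩
  · simp only [Nat.zero_le, if_true, if_neg (show ¬ k ≤ j by omega)] at hlt
    omega
  · intro e he
    by_cases h1 : e + 1 ≤ j
    · rw [if_pos h1, if_pos (by omega)]
      exact hP1 e he
    · by_cases h2 : e ≤ j
      · have : e = j := by omega
        subst this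
        rw [if_pos le_rfl, if_neg h1]
        exact hrot e hj _ _ (hP1 e hj) i u hAj l
      · rw [if_neg h1, if_neg h2]
        exact hM e he _ hrM _ _ (hP1 e he)
  · intro e he
    obtain ⟨m, hm, e3⟩ := hP2 e he
    split_ifs
    · exact ⟨m, hm, e3⟩
    · exact ⟨_, M.mul_mem hrM hm, by rw [e3, mul_assoc]⟩

/-- the displacement of a translate -/
theorem s_tr (i : L.ι) (u a g : G) : L.s i u a (a * g) = L.s i (a⁻¹ * u) 1 g := by
  unfold LS.s
  rw [mul_inv_rev, inv_inv, mul_one]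
  congr 1
  rw [mul_assoc]

/-- the relations for the sides of a quadrangle: two rigid sides `g1`, `g3` and two sides of cone
length at most `q2`, `q4` -/
def R4 (E : GH G) (g1 g3 : G) (q2 q4 : ℕ) (j : ℕ) (a b : G) : Prop :=
  if j = 0 then b = a * g1 else if j = 1 then E.d a b ≤ q2 else if j = 2 then b = a * g3
    else E.d a b ≤ q4

/-- a quadrangle in the quotient with two rigid sides lifts to a closed quadrangle -/
theorem close4 {n : L.ι → ℕ} {M : Subgroup G} (F : Fv L n M) {A : L.ι → ℕ}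
    (hn : ∀ i, 4 * A i + 12 * L.thr ≤ n i) (hn2 : ∀ i, 24 * L.thr + T * (2 * c + 1) ≤ n i)
    {E : GH G} {Θ : ℕ} (C : L.Cone E Θ) (hA : ∀ i, T * Θ + 1 ≤ A i) (g1 g2 g3 g4 : G)
    (h1 : ∀ (i : L.ι) (u : G), |L.s i u 1 g1| < A i)
    (h3 : ∀ (i : L.ι) (u : G), |L.s i u 1 g3| < A i) (h : g1 * g2 * g3 * g4 ∈ M) :
    ∃ h2 h4 : G, E.len h2 ≤ E.len g2 ∧ E.len h4 ≤ E.len g4 ∧ g1 * h2 * g3 * h4 = 1 := by
  let P : ℕ → G := fun j => if j = 0 then 1 else if j = 1 then g1 else if j = 2 then g1 * g2 else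
    if j = 3 then g1 * g2 * g3 else g1 * g2 * g3 * g4
  have hM1 : ∀ j < 4, ∀ m ∈ M, ∀ a b, R4 E g1 g3 (E.len g2) (E.len g4) j a b →
      R4 E g1 g3 (E.len g2) (E.len g4) j (m * a) (m * b) := by
    intro j _ m _ a b hab
    unfold R4 at hab ⊢
    split_ifs at hab ⊢
    · rw [hab, mul_assoc]
    · rwa [E.d_mul]
    · rw [hab, mul_assoc]
    · rwa [E.d_mul]
  have hrot : ∀ j < 4, ∀ a b, R4 E g1 g3 (E.len g2) (E.len g4) j a b → ∀ (i : L.ι) (u : G),
      (A i : ℤ) ≤ |L.s i u a b| → ∀ l : ℤ,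
      R4 E g1 g3 (E.len g2) (E.len g4) j a (L.rt i u (n i * l) * b) := by
    intro j _ a b hab i u hs l
    have hD : Θ ≤ L.D i u a b := by
      refine L.cl_D_ge i u a b Θ ?_
      have h5 : ((T * Θ + 1 : ℕ) : ℤ) ≤ A i := by exact_mod_cast hA i
      have h6 : ((T * Θ : ℕ) : ℤ) ≤ |L.s i u a b| := by
        push_cast at h5 ⊢
        linarith
      rw [Int.abs_eq_natAbs] at h6
      exact_mod_cast h6
    have hc := L.rot_cone C (n := n i) hD (n i * l)
    unfold R4 at hab ⊢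
    split_ifs at hab ⊢
    · exfalso
      rw [hab, s_tr] at hs
      exact absurd (h1 i (a⁻¹ * u)) (not_lt.2 hs)
    · exact hc.trans hab
    · exfalso
      rw [hab, s_tr] at hs
      exact absurd (h3 i (a⁻¹ * u)) (not_lt.2 hs)
    · exact hc.trans hab
  obtain ⟨P', hP1, hP2, -⟩ := closeV L F hn hn2 (R4 E g1 g3 (E.len g2) (E.len g4)) hM1 hrot P
    (by
      intro j hj
      have : j = 0 ∨ j = 1 ∨ j = 2 ∨ j = 3 := by omega
      rcases this with rfl | rfl | rfl | rfl
      · simp [R4, P]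
      · have e : E.d g1 (g1 * g2) ≤ E.len g2 := by
          unfold GH.d
          rw [inv_mul_cancel_left]
        simpa [R4, P] using e
      · simp [R4, P]
      · have e : E.d (g1 * g2 * g3) (g1 * g2 * g3 * g4) ≤ E.len g4 := by
          unfold GH.d
          rw [inv_mul_cancel_left]
        simpa [R4, P] using e)
    ⟨_, h, by simp [P]⟩
  have e0 : P' 1 = P' 0 * g1 := by
    have := hP1 0 (by omega)
    simpa [R4] using this
  have e1 : E.d (P' 1) (P' 2) ≤ E.len g2 := by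
    have := hP1 1 (by omega)
    simpa [R4] using this
  have e2 : P' 3 = P' 2 * g3 := by
    have := hP1 2 (by omega)
    simpa [R4] using this
  have e3 : E.d (P' 3) (P' 4) ≤ E.len g4 := by
    have := hP1 3 (by omega)
    simpa [R4] using this
  refine ⟨(P' 1)⁻¹ * P' 2, (P' 3)⁻¹ * P' 4, e1, e3, ?_⟩
  rw [hP2, e2, e0]
  group

end Pool.Agent.H319.FS
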