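import Pool.Graph.R_seed8.Y45.MON.Defs
import Pool.Graph.R_seed8.TH54.BU.Cone

/-!
# Paths which never run against each other, and the cone metric
-/

set_option autoImplicit false

namespace Pool.Agent.H319.FS

open Pool.Agent.TH54.BU Pool.Agent.Y45.MON

/-- translates of paths of `P` run against each other only for a time `Λ` -/
def PI {G : Type} [Group G] (H : GH G) (Λ : ℕ) (P : Set G) : Prop :=
  ∀ σ ∈ P, ∀ τ ∈ P, ∀ h : G, H.len σ + H.len τ ≤ H.d h σ + H.d 1 (h * τ) + 2 * Λ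

/-- geodesics of the space are almost geodesics of the cone metric -/
theorem cone_g1 (D c : ℕ) : ∃ R : ℕ, ∀ (G : Type) [Group G] (H : GH G) (θ T : ℕ)
    (L : LS H c θ T) (E : GH G) (Θ : ℕ), L.Cone E Θ → H.D ≤ D → ∀ p q t,
    H.d p t + H.d t q = H.d p q → E.d p t + E.d t q ≤ E.d p q + 2 * R := by
  obtain ⟨R, hR⟩ := guess D (c + 1)
  refine ⟨R, ?_⟩
  intro G _ H θ T L E Θ C hD p q t ht
  have hF : Four H.d D := by
    intro u v w z
    have := H.fp u v w z
    omega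
  have hle : ∀ u v, E.d u v ≤ H.d u v := fun u v => C.le _
  have hnear : ∀ p q r, E.d p q ≤ 1 → H.d p r + H.d r q = H.d p q → E.d p r ≤ c + 1 := by
    intro p q r h hr
    rcases (C.le_one (p⁻¹ * q)).1 h with h1 | ⟨i, k, hk⟩
    · have h2 : H.d p q ≤ 1 := h1
      have h3 := hle p r
      omega
    · have h0 : H.d (L.x i ^ (0 : ℤ)) (p⁻¹ * r) + H.d (p⁻¹ * r) (L.x i ^ k) =
          H.d (L.x i ^ (0 : ℤ)) (L.x i ^ k) := by
        rw [← hk, zpow_zero, ← H.d_mul p 1, ← H.d_mul p (p⁻¹ * r), ← H.d_mul p 1,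
          mul_inv_cancel_left, mul_inv_cancel_left, mul_one]
        exact hr
      obtain ⟨m, hm⟩ := L.qc i 0 k _ h0
      have h1 : E.d p (p * L.x i ^ m) ≤ 1 := by
        unfold GH.d
        rw [inv_mul_cancel_left]
        exact (C.le_one _).2 (Or.inr ⟨i, m, rfl⟩)
      have h2 := hle (p * L.x i ^ m) r
      have h3 := E.d_tri p (p * L.x i ^ m) r
      have h4 : H.d (p * L.x i ^ m) r = H.d (p⁻¹ * r) (L.x i ^ m) := by
        rw [← H.d_mul p (p⁻¹ * r), mul_inv_cancel_left, H.d_comm]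
      omega
  obtain ⟨g1, -, -⟩ := hR G H.d E.d H.dm E.dm hle hF hnear
  obtain ⟨γ, h0, h1, hG⟩ := E.exists_geod p q
  obtain ⟨i, hi, hi2⟩ := g1 γ (E.d p q) hG.1 hG.2 t (by rw [h0, h1]; exact ht)
  have e2 := hG.sub (Nat.zero_le i) hi
  have e3 := hG.sub hi le_rfl
  rw [h0] at e2
  rw [h1] at e3
  have t1 := E.d_tri p (γ i) t
  have t2 := E.d_tri t (γ i) q
  have t3 := E.d_comm (γ i) t
  omega

variable {G : Type} [Group G]

/-- two paths which do not run against each other do not do so in the cone metric -/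
theorem pi_E {H E : GH G} {D R Λ : ℕ} (hD : H.D ≤ D) (hle : ∀ g, E.len g ≤ H.len g)
    (g1 : ∀ p q t, H.d p t + H.d t q = H.d p q → E.d p t + E.d t q ≤ E.d p q + 2 * R)
    {P : Set G} (hP : PI H Λ P) : PI E (Λ + 3 * D + 2 * R + 2) P := by
  intro σ hσ τ hτ h
  have h0 := hP σ hσ τ hτ h
  have e1 : H.len σ = H.d 1 σ := (H.d_one σ).symm
  have e2 : H.len τ = H.d h (h * τ) := by
    unfold GH.d
    rw [inv_mul_cancel_left]
  have e3 : E.len σ = E.d 1 σ := (E.d_one σ).symm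
  have e4 : E.len τ = E.d h (h * τ) := by
    unfold GH.d
    rw [inv_mul_cancel_left]
  rw [e3, e4]
  rw [e1, e2] at h0
  generalize h * τ = w at h0 ⊢
  -- `t` on `[h, σ]`
  have q1 := H.d_tri 1 h σ
  have q2 := H.d_tri h 1 σ
  have q3 := H.d_tri 1 σ h
  have q4 := H.d_comm h 1
  have q5 := H.d_comm σ h
  obtain ⟨t, t1, t2⟩ := H.between h σ ((H.d 1 h + H.d h σ - H.d 1 σ) / 2) (by omega)
  have f1 := H.fp 1 t h σ
  have f2 := H.fp t w h σ
  have f3 := H.fp 1 h σ w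
  have c1 := H.d_comm t h
  have c2 := H.d_comm w σ
  have c3 := H.d_comm w h
  have c4 := H.d_comm t σ
  have c5 := H.d_comm 1 h
  have c6 := H.d_comm t w
  have q6 := H.d_tri 1 t w
  have q7 := H.d_tri 1 w t
  have q8 := H.d_tri t 1 w
  have c7 := H.d_comm w t
  have c8 := H.d_comm t 1
  have s1 : H.d t 1 + H.d t w ≤ H.d 1 w + (2 * Λ + 3 * D + 1) := by
    rcases max_choice (H.d 1 σ + H.d h w) (H.d 1 w + H.d h σ) with h3 | h3 <;> rw [h3] at f3 <;>
    rcases max_choice (H.d 1 h + H.d t σ) (H.d 1 σ + H.d t h) with h1 | h1 <;> rw [h1] at f1 <;>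
    rcases max_choice (H.d t h + H.d w σ) (H.d t σ + H.d w h) with h2 | h2 <;> rw [h2] at f2 <;>
    omega
  -- `t'` on `[1, w]`
  obtain ⟨a, ha⟩ : ∃ a, a = min (H.d 1 t - (Λ + 2 * D + 1)) (H.d 1 w) := ⟨_, rfl⟩
  obtain ⟨t', t3, t4⟩ := H.between 1 w a (by omega)
  have f4 := H.fp t t' 1 w
  have c9 := H.d_comm t' 1
  have key : H.d t t' ≤ Λ + 3 * D + 2 := by
    rcases max_choice (H.d t 1 + H.d t' w) (H.d t w + H.d t' 1) with h4 | h4 <;>
      rw [h4] at f4 <;> omega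
  have g2 := g1 h σ t (by omega)
  have g3 := g1 1 w t' (by omega)
  have g4 : E.d t t' ≤ H.d t t' := hle _
  have r1 := E.d_tri 1 t' σ
  have r2 := E.d_tri t' t σ
  have r3 := E.d_tri h t w
  have r4 := E.d_tri t t' w
  have r5 := E.d_comm t t'
  omega

end Pool.Agent.H319.FS
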