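import Pool.Agent.H319.FS.Seq
import Pool.Graph.R_seed8.Y872.MON.LimB

/-!
# The limit of the sequence
-/

set_option autoImplicit false

namespace Pool.Agent.H319.FS

open Pool.Agent.TH54.BU Pool.Agent.Y45.MON Pool.Agent.Y872.MON

/-- the sequence and its limit -/
structure LF {r : ℕ} (w : WP r) (R0 N R : ℕ) (ε : Fin r → ℕ) (G : ℕ → Type)
    [∀ n, Group (G n)] (H : ∀ n, GH (G n)) (f : ∀ n, G n →* G (n + 1)) (P : ∀ n, Set (G n))
    (ex : ∀ n, G n → ℕ) (Xs : ∀ n, Set (G n)) (Gn : ∀ n, G n → Prop) (L : Type) [Group L]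
    (π : ∀ n, G n →* L) : Prop where
  sq : SqF w R0 N R ε G H f P ex Xs Gn
  R1 : 1 ≤ R0
  N3 : ∀ q : ℕ, q.Prime → q ∣ N → 3 ≤ q
  sur : ∀ n, Function.Surjective (π n)
  cmp : ∀ n g, π (n + 1) (f n g) = π n g
  ker : ∀ n g, π n g = 1 → Dies f n g

section

variable {r : ℕ} {w : WP r} {R0 N R : ℕ} {ε : Fin r → ℕ} {G : ℕ → Type} [∀ n, Group (G n)]
  {H : ∀ n, GH (G n)} {f : ∀ n, G n →* G (n + 1)} {P : ∀ n, Set (G n)} {ex : ∀ n, G n → ℕ}
  {Xs : ∀ n, Set (G n)} {Gn : ∀ n, G n → Prop} {L : Type} [Group L] {π : ∀ n, G n →* L}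

namespace LF

theorem ev (D : LF w R0 N R ε G H f P ex Xs Gn L π) : ∀ (k n : ℕ) (a b : G n),
    (H n).len a ≤ k → (H n).len (P0 w.M1 a b) ≤ k → ∃ (m : ℕ) (a' b' : G m),
      π m a' = π n a ∧ π m b' = π n b ∧ IsOfFinOrder a' ∧ IsOfFinOrder (P0 w.M1 a' b') := by
  intro k
  induction k using Nat.strong_induction_on with
  | _ k ih =>
    intro n a b ha hb
    by_cases hk : k ≤ 1
    · refine ⟨n + 1, f n a, f n b, D.cmp n a, D.cmp n b, (D.sq.st n).kill a (ha.trans hk), ?_⟩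
      have := (D.sq.st n).kill _ (hb.trans hk)
      rwa [map_P0] at this
    · have h1 := (D.sq.st n).len a
      have h2 := (D.sq.st n).len (P0 w.M1 a b)
      rw [map_P0] at h2
      obtain ⟨m, a', b', h3, h4, h5, h6⟩ := ih ((k + 1) / 2) (by omega) (n + 1) (f n a) (f n b)
        (by omega) (by omega)
      exact ⟨m, a', b', h3.trans (D.cmp n a), h4.trans (D.cmp n b), h5, h6⟩

theorem fin (D : LF w R0 N R ε G H f P ex Xs Gn L π) (a : L) :
    ∃ (n : ℕ) (g : G n), IsOfFinOrder g ∧ π n g = a := by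
  obtain ⟨a0, rfl⟩ := D.sur 0 a
  obtain ⟨m, a', b', h1, -, h3, -⟩ := D.ev (max ((H 0).len a0) ((H 0).len (P0 w.M1 a0 1))) 0 a0 1
    (le_max_left _ _) (le_max_right _ _)
  exact ⟨m, a', h3, h1⟩

/-- the pull back of a noncommuting pair -/
theorem main' (D : LF w R0 N R ε G H f P ex Xs Gn L π) (A B : L) (hAB : A * B ≠ B * A) :
    ∃ (n : ℕ) (h0 : L) (a b : G (n + 1)), Gd (H (n + 1)) a b (X1 w.M1 w.m2 a b) ∧
      Gn (n + 1) (X1 w.M1 w.m2 a b) ∧
      π (n + 1) a = h0 * A * h0⁻¹ ∧ π (n + 1) b = h0 * B * h0⁻¹ := by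
  let S : ℕ → Prop := fun m => ∃ (a b : G m) (h : L), π m a = h * A * h⁻¹ ∧
    π m b = h * B * h⁻¹ ∧ IsOfFinOrder a ∧ IsOfFinOrder (P0 w.M1 a b)
  have hS : ∃ m, S m := by
    obtain ⟨a, ha⟩ := D.sur 0 A
    obtain ⟨b, hb⟩ := D.sur 0 B
    obtain ⟨m, a', b', h1, h2, h3, h4⟩ := D.ev (max ((H 0).len a) ((H 0).len (P0 w.M1 a b))) 0
      a b (le_max_left _ _) (le_max_right _ _)
    exact ⟨m, a', b', 1, by simp [h1, ha], by simp [h2, hb], h3, h4⟩
  classical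
  obtain ⟨m, hm, hmin⟩ : ∃ m, S m ∧ ∀ k < m, ¬ S k :=
    ⟨Nat.find hS, Nat.find_spec hS, fun k hk => Nat.find_min hS hk⟩
  obtain ⟨a', b', h, h1, h2, h3, h4⟩ := hm
  have hA : A ≠ 1 := by rintro rfl; simp at hAB
  have hB : B ≠ 1 := by rintro rfl; simp at hAB
  cases m with
  | zero =>
    exfalso
    have h5 : a' = 1 := D.sq.free a' h3
    rw [h5, map_one] at h1
    exact hA (conj_eq_one_iff.1 h1.symm)
  | succ n =>
    have hab : a' * b' ≠ b' * a' := by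
      intro e
      apply hAB
      have e1 := congrArg (π (n + 1)) e
      rw [map_mul, map_mul, h1, h2] at e1
      have e2 : h * (A * B) * h⁻¹ = h * (B * A) * h⁻¹ := by
        rw [show h * (A * B) * h⁻¹ = h * A * h⁻¹ * (h * B * h⁻¹) by group, e1]
        group
      exact mul_left_cancel (mul_right_cancel e2)
    obtain ⟨a1, b1, k, h5, h6, h7, h8, h9⟩ := (D.sq.st n).pb a' b' h3 hab h4
    have e1 : π (n + 1) (f n a1) = (π (n + 1) k * h) * A * (π (n + 1) k * h)⁻¹ := by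
      rw [h8, map_mul, map_mul, map_inv, h1]
      group
    have e2 : π (n + 1) (f n b1) = (π (n + 1) k * h) * B * (π (n + 1) k * h)⁻¹ := by
      rw [h9, map_mul, map_mul, map_inv, h2]
      group
    have ha1 : a1 ≠ 1 := by
      rintro rfl
      rw [map_one, map_one] at e1
      exact hA (conj_eq_one_iff.1 e1.symm)
    have hb1 : b1 ≠ 1 := by
      rintro rfl
      rw [map_one, map_one] at e2
      exact hB (conj_eq_one_iff.1 e2.symm)
    have h10 : ¬ IsOfFinOrder (P0 w.M1 a1 b1) := fun h10 => hmin n (by omega)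
      ⟨a1, b1, π (n + 1) k * h, (D.cmp n a1).symm.trans e1, (D.cmp n b1).symm.trans e2, h5, h10⟩
    have h11 : IsOfFinOrder (f n (P0 w.M1 a1 b1)) := by
      rw [map_P0, h8, h9, conj_P0]
      exact cf _ _ h4
    have l1 : (H n).len a1 ≤ 1 := by simpa using h6 1
    have l2 : (H n).len (a1 ^ 2) ≤ 1 := by
      have := h6 2
      rwa [zpow_ofNat] at this
    obtain ⟨x1, x2, x3⟩ := (D.sq.st n).xa a1 b1 h5 h6 h7 h10 h11
    have x4 := D.sq.x1 n a1 b1 h5 h6 h7 h10 h11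
    have l3 : (H (n + 1)).len (f n b1) ≤ 1 := (D.sq.st n).len0 _ h7
    refine ⟨n, π (n + 1) k * h, f n a1, f n b1, ?_, ?_, e1, e2⟩
    · rw [← map_X1]
      refine ⟨?_, l3, x2, x1, ?_, ?_, ?_⟩
      · exact (D.sq.st n).len0 _ (l1.trans D.R1)
      · exact x3 a1 (l1.trans D.R1) ha1
      · have := x3 (a1 ^ 2) (l2.trans D.R1) (LD.sq_ne D.N3 (D.sq.tor n a1 h5) ha1)
        rwa [map_pow] at this
      · exact x3 b1 h7 hb1
    · rw [← map_X1]
      exact x4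

theorem map_vv' (w : WP r) {G1 G2 : Type} [Group G1] [Group G2]
    (φ : G1 →* G2) (j : Fin r) (a b : G1) : φ (vv w j a b) = vv w j (φ a) (φ b) := by
  unfold vv
  rw [map_Wj, map_X1]

/-- the values of the words -/
theorem kill (D : LF w R0 N R ε G H f P ex Xs Gn L π) (j : Fin r) (A B : L)
    (hAB : A * B ≠ B * A) : vv w j A B ^ ε j = 1 := by
  obtain ⟨n, h0, a, b, hG, hN, h1, h2⟩ := D.main' A B hAB
  obtain ⟨v1, v2, v3, -, -⟩ := (D.sq.st (n + 1)).wr a b _ hG j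
  have hm := D.sq.mka (n + 1) a b _ j hG hN
  obtain ⟨x, hx, u, k, hV⟩ := (D.sq.st (n + 2)).short _ v1 v2
  obtain ⟨hx1, hx2⟩ := (D.sq.st (n + 2)).prim x hx
  have hk : k = 1 ∨ k = -1 := by
    obtain ⟨t, ht⟩ := v3 (u * x * u⁻¹) (by rw [hV]; group)
    rw [hV] at ht
    have e1 : (u * x ^ k * u⁻¹) ^ t = u * x ^ (k * t) * u⁻¹ := by
      rw [zpow_mul, conj_zpow]
    rw [e1] at ht
    have e2 : x = x ^ (k * t) := mul_left_cancel (mul_right_cancel ht)
    have e3 : x ^ (k * t - 1) = 1 := by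
      rw [zpow_sub, ← e2, zpow_one, mul_inv_cancel]
    have e4 : k * t - 1 = 0 := by
      by_contra h
      exact hx1 (isOfFinOrder_iff_zpow_eq_one.2 ⟨_, h, e3⟩)
    exact Int.eq_one_or_neg_one_of_mul_eq_one (show k * t = 1 by omega)
  have hex : ex (n + 1 + 1) x = ε j := by
    rw [← hm, hV, D.sq.exc]
    rcases hk with rfl | rfl
    · rw [zpow_one]
    · rw [zpow_neg, zpow_one, D.sq.exi]
  have h3 : f (n + 2) (x ^ (k * ε j)) = 1 := by
    rw [(D.sq.st (n + 2)).ord x hx]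
    have : ex (n + 2) x = ε j := hex
    rw [this]
    exact Dvd.intro_left _ rfl
  have h4 : π (n + 2) (f (n + 1) (Wj w j a b (X1 w.M1 w.m2 a b))) ^ ε j = 1 := by
    have h5 : f (n + 2) (u * x ^ (k * ε j) * u⁻¹) = 1 := by
      rw [map_mul, map_mul, h3, mul_one, ← map_mul, mul_inv_cancel, map_one]
    rw [← map_pow, hV, conj_pow, ← zpow_natCast, ← zpow_mul, ← D.cmp, h5, map_one]
  rw [D.cmp] at h4
  have h5 : π (n + 1) (vv w j a b) ^ ε j = 1 := h4
  rw [map_vv', h1, h2] at h5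
  have h6 : vv w j (h0 * A * h0⁻¹) (h0 * B * h0⁻¹) = h0 * vv w j A B * h0⁻¹ := by
    unfold vv
    rw [conj_X1, conj_Wj]
  rw [h6, conj_pow] at h5
  exact conj_eq_one_iff.1 h5

/-- the paths stay different -/
theorem pinj (D : LF w R0 N R ε G H f P ex Xs Gn L π) (σ τ : G 0) (hσ : σ ∈ P 0)
    (hτ : τ ∈ P 0) (h : π 0 σ = π 0 τ) : σ = τ := by
  have key : ∀ (n : ℕ) (g : G n), Dies f n g → ∀ σ ∈ P n, ∀ τ ∈ P n, g = σ * τ⁻¹ → σ = τ := by
    intro n g hg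
    induction hg with
    | one n =>
      intro σ _ τ _ h
      exact mul_inv_eq_one.1 h.symm
    | step n g hg ih =>
      intro σ hσ τ hτ h
      apply D.sq.inj n σ hσ τ hτ
      exact ih _ (D.sq.im n σ hσ) _ (D.sq.im n τ hτ) (by rw [h, map_mul, map_inv])
  exact key 0 (σ * τ⁻¹) (D.ker 0 _ (by rw [map_mul, map_inv, h, mul_inv_cancel])) σ hσ τ hτ rfl

end LF

end

/-- the limit theorem -/
theorem limF (r : ℕ) (δ : Fin r → ℕ) (hδ : ∀ j, δ j = 1 ∨ δ j = 2) :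
  ∃ (w : WP r) (n0 : ℕ) (Big : ℕ → ℕ), w.δ = δ ∧ 3 ≤ n0 ∧
    ∀ N R : ℕ, N ≠ 1 → 1 ≤ R → (∀ q : ℕ, q.Prime → q ∣ N → n0 ≤ q) → Big R ≤ N →
      ∀ (ε : Fin r → ℕ), (∀ j, ε j ∣ N ∧ ε j ≠ 1) →
      ∃ (L : Type) (_ : Group L) (x y : L), (∀ g : L, g ^ N = 1) ∧
        (∀ (j : Fin r) (a b : L), a * b ≠ b * a → vv w j a b ^ ε j = 1) ∧
        ∀ l l' : List Bool, l.length ≤ R → l'.length ≤ R →
          (l.map fun i => if i then x else y).prod = (l'.map fun i => if i then x else y).prod →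
          l = l' := by
  obtain ⟨w, R0, n0, Big, h1, h2, h3, h4⟩ := seqF r δ hδ
  refine ⟨w, n0, Big, h1, h3, ?_⟩
  intro N R hN hR hq hBig ε hε
  obtain ⟨G, iG, H, f, P, ex, Xs, Gn, hS⟩ := h4 N R hN hR hq hBig ε hε
  obtain ⟨L, iL, π, p1, p2, p3⟩ := exists_lim f (fun n => (hS.st n).surj)
  have D : LF w R0 N R ε G H f P ex Xs Gn L π :=
    ⟨hS, h2, fun q hq1 hq2 => h3.trans (hq q hq1 hq2), p1, p2, p3⟩
  obtain ⟨x, y, -, g1, g2⟩ := hS.gen
  refine ⟨L, iL, π 0 x, π 0 y, ?_, D.kill, ?_⟩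
  · intro g
    obtain ⟨n, g0, h5, rfl⟩ := D.fin g
    rw [← map_pow, hS.tor n g0 h5, map_one]
  · intro l l' hl hl' h
    have hm : ∀ l : List Bool, (l.map fun i => if i then π 0 x else π 0 y).prod =
        π 0 (l.map fun i => if i then x else y).prod := by
      intro l
      rw [map_list_prod, List.map_map]
      congr 2
      funext i
      cases i <;> rfl
    rw [hm, hm] at h
    exact g2 l l' (D.pinj _ _ (g1 l hl) (g1 l' hl') h)

end Pool.Agent.H319.FS
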