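import Pool.Agent.H319.FS.Cone
import Pool.Graph.R_seed8.Y45.MON.StmS
import Pool.Graph.R_seed8.TH54.BU.Tube

/-!
# Lines followed by paths of `P`
-/

set_option autoImplicit false

namespace Pool.Agent.H319.FS

open Pool.Agent.TH54.BU Pool.Agent.Y45.MON

/-- the paths of `P` do not pass through a translate of the segment from `1` to `X ^ K1` (in either
direction), with error `c1` -/
def NT {G : Type} [Group G] (H : GH G) (c1 K1 : ℕ) (P : Set G) (X : G) : Prop :=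
  ∀ σ ∈ P, ∀ a b : G, (b = a * X ^ K1 ∨ a = b * X ^ K1) →
    H.len σ + c1 < H.d 1 a + H.d a b + H.d b σ

variable {G : Type} [Group G] {H : GH G} {c θ T : ℕ} (L : LS H c θ T)

/-- a path with a large displacement along a line passes near the line -/
theorem thru (i : L.ι) (w p q : G) (e : ℤ)
    (he : (0 ≤ e ∧ e ≤ L.s i w p q) ∨ (L.s i w p q ≤ e ∧ e ≤ 0))
    (hc : T * c < (L.s i w p q).natAbs) :
    H.d p (L.pr i w p) + H.len (L.x i ^ e) + H.d (L.pr i w p * L.x i ^ e) q ≤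
      H.d p q + 2 * c := by
  have h1 := L.D_proj i w p q (L.wf_len_of i _ _ hc)
  have h2 : L.pr i w q = L.pr i w p * L.x i ^ L.s i w p q := by
    unfold LS.pr LS.s
    rw [mul_assoc, ← zpow_add]
    congr 2
    ring
  have h3 : H.d (L.pr i w p * L.x i ^ e) q ≤ H.len (L.x i ^ (L.s i w p q - e)) +
      H.d q (L.pr i w q) := by
    have h4 := H.d_tri (L.pr i w p * L.x i ^ e) (L.pr i w q) q
    have h5 : H.d (L.pr i w p * L.x i ^ e) (L.pr i w q) =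
        H.len (L.x i ^ (L.s i w p q - e)) := by
      rw [h2, H.d_mul]
      unfold GH.d
      rw [← zpow_neg, ← zpow_add]
      congr 2
      ring
    rw [h5, H.d_comm (L.pr i w q) q] at h4
    exact h4
  have h6 : H.len (L.x i ^ e) + H.len (L.x i ^ (L.s i w p q - e)) ≤ L.D i w p q + c := by
    have h7 := L.sup i e.natAbs (L.s i w p q - e).natAbs
    have h8 : e.natAbs + (L.s i w p q - e).natAbs = (L.s i w p q).natAbs := by omega
    rw [h8, ← L.wf_len_zpow, ← L.wf_len_zpow, ← L.wf_len_zpow] at h7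
    exact h7
  omega

/-- paths of `P` cannot follow lines of the same type in both directions -/
theorem opp {Λ B1 : ℕ} {P : Set G} (hP : PI H Λ P) (hB : T * (Λ + 2 * c) < B1) (i : L.ι)
    {σ τ : G} (hσ : σ ∈ P) (hτ : τ ∈ P) (w w' : G) (h1 : (B1 : ℤ) ≤ L.s i w 1 σ)
    (h2 : L.s i w' 1 τ ≤ -(B1 : ℤ)) : False := by
  have hTc : T * c ≤ T * (Λ + 2 * c) := Nat.mul_le_mul_left _ (by omega)
  have t1 := thru L i w 1 σ B1 (Or.inl ⟨by omega, h1⟩) (by omega)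
  have t2 := thru L i w' 1 τ (-B1) (Or.inr ⟨h2, by omega⟩) (by omega)
  have hl : H.len (L.x i ^ (-(B1 : ℤ))) = H.len (L.x i ^ (B1 : ℤ)) := H.len_zpow_neg _ _
  rw [hl] at t2
  have h0 := hP σ hσ τ hτ (L.pr i w 1 * L.x i ^ (B1 : ℤ) * (L.pr i w' 1)⁻¹)
  obtain ⟨h, hh⟩ : ∃ h, h = L.pr i w 1 * L.x i ^ (B1 : ℤ) * (L.pr i w' 1)⁻¹ := ⟨_, rfl⟩
  rw [← hh] at h0
  have e1 : h * L.pr i w' 1 = L.pr i w 1 * L.x i ^ (B1 : ℤ) := by rw [hh]; group
  have e2 : h * (L.pr i w' 1 * L.x i ^ (-(B1 : ℤ))) = L.pr i w 1 := by rw [hh]; group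
  have s1 := H.d_tri h (h * L.pr i w' 1) σ
  have s2 : H.d h (h * L.pr i w' 1) = H.d 1 (L.pr i w' 1) := by
    have := H.d_mul h 1 (L.pr i w' 1)
    rwa [mul_one] at this
  have s3 := H.d_tri 1 (L.pr i w 1) (h * τ)
  have s4 : H.d (L.pr i w 1) (h * τ) = H.d (L.pr i w' 1 * L.x i ^ (-(B1 : ℤ))) τ := by
    have := H.d_mul h (L.pr i w' 1 * L.x i ^ (-(B1 : ℤ))) τ
    rwa [e2] at this
  rw [e1] at s1 s2
  rw [H.d_one] at t1 t2
  have s5 : H.d 1 σ = H.len σ := H.d_one σ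
  have s6 : H.d 1 τ = H.len τ := H.d_one τ
  have s7 : H.d 1 (L.pr i w 1) = H.len (L.pr i w 1) := H.d_one _
  have s8 : H.d 1 (L.pr i w' 1) = H.len (L.pr i w' 1) := H.d_one _
  have s9 : H.len (L.x i ^ (B1 : ℤ)) ≤ Λ + 2 * c := by omega
  have s10 := L.wf_lin_z i B1
  have s11 : T * H.len (L.x i ^ (B1 : ℤ)) ≤ T * (Λ + 2 * c) := Nat.mul_le_mul_left _ s9
  omega

/-- paths of `P` cannot follow the axis of `X` for a long time -/
theorem ntdisp {K1 t : ℕ} {P : Set G} {X : G} (hX : NT H (2 * c + 4 * t) K1 P X) (i : L.ι)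
    (u : G) (e : ℤ) (he : e ≠ 0) (hXe : X = u * L.x i ^ e * u⁻¹) (hu : H.len u ≤ t)
    (hK : T * c < K1) {σ : G} (hσ : σ ∈ P) (w : G) :
    (L.s i w 1 σ).natAbs < K1 * e.natAbs := by
  by_contra hcon
  push Not at hcon
  have he1 : 1 ≤ e.natAbs := Nat.one_le_iff_ne_zero.2 (Int.natAbs_ne_zero.2 he)
  have hK2 : K1 ≤ K1 * e.natAbs := Nat.le_mul_of_pos_right _ he1
  have hXp : X ^ K1 = u * L.x i ^ (e * (K1 : ℤ)) * u⁻¹ := by
    rw [hXe, conj_pow, zpow_mul, zpow_natCast]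
  have hab : (K1 * e).natAbs = K1 * e.natAbs := by
    rw [Int.natAbs_mul, Int.natAbs_natCast]
  -- the estimate
  have key : ∀ k : ℤ, ((0 ≤ k ∧ k ≤ L.s i w 1 σ) ∨ (L.s i w 1 σ ≤ k ∧ k ≤ 0)) →
      (L.pr i w 1 * L.x i ^ k * u⁻¹ = L.pr i w 1 * u⁻¹ * X ^ K1 ∨
        L.pr i w 1 * u⁻¹ = L.pr i w 1 * L.x i ^ k * u⁻¹ * X ^ K1) → False := by
    intro k hk hk2
    have h1 := thru L i w 1 σ k hk (by omega)
    have h2 := hX σ hσ (L.pr i w 1 * u⁻¹) (L.pr i w 1 * L.x i ^ k * u⁻¹) hk2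
    have f1 : ∀ g : G, H.d g (g * u⁻¹) ≤ t := by
      intro g
      unfold GH.d
      rw [inv_mul_cancel_left, H.len_inv]
      exact hu
    have f2 : ∀ g : G, H.d (g * u⁻¹) g ≤ t := by
      intro g
      rw [H.d_comm]
      exact f1 g
    have d1 := H.d_tri 1 (L.pr i w 1) (L.pr i w 1 * u⁻¹)
    have d2 := H.d_tri (L.pr i w 1 * u⁻¹) (L.pr i w 1) (L.pr i w 1 * L.x i ^ k * u⁻¹)
    have d3 := H.d_tri (L.pr i w 1) (L.pr i w 1 * L.x i ^ k) (L.pr i w 1 * L.x i ^ k * u⁻¹)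
    have d4 := H.d_tri (L.pr i w 1 * L.x i ^ k * u⁻¹) (L.pr i w 1 * L.x i ^ k) σ
    have d5 : H.d (L.pr i w 1) (L.pr i w 1 * L.x i ^ k) = H.len (L.x i ^ k) := by
      unfold GH.d
      rw [inv_mul_cancel_left]
    have d6 := f1 (L.pr i w 1)
    have d7 := f2 (L.pr i w 1)
    have d8 := f1 (L.pr i w 1 * L.x i ^ k)
    have d9 := f2 (L.pr i w 1 * L.x i ^ k)
    rw [H.d_one σ] at h1
    omega
  have hpos : (0 < L.s i w 1 σ ∧ (0 < K1 * e ∨ K1 * e < 0)) ∨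
      (L.s i w 1 σ < 0 ∧ (0 < K1 * e ∨ K1 * e < 0)) := by omega
  have e1 : L.pr i w 1 * L.x i ^ (K1 * e) * u⁻¹ = L.pr i w 1 * u⁻¹ * X ^ K1 := by
    rw [hXp, mul_comm (K1 : ℤ) e]
    group
  have e2 : L.pr i w 1 * u⁻¹ = L.pr i w 1 * L.x i ^ (-(K1 * e)) * u⁻¹ * X ^ K1 := by
    rw [hXp, mul_comm (K1 : ℤ) e, zpow_neg]
    group
  rcases hpos with ⟨h1, h2 | h2⟩ | ⟨h1, h2 | h2⟩
  · exact key (K1 * e) (Or.inl (by omega)) (Or.inl e1)
  · exact key (-(K1 * e)) (Or.inl (by omega)) (Or.inr e2)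
  · exact key (-(K1 * e)) (Or.inr (by omega)) (Or.inr e2)
  · exact key (K1 * e) (Or.inr (by omega)) (Or.inl e1)

/-- the conjugator of a frame, for a given line -/
theorem frame' (i : L.ι) (u0 : G) (e : ℤ) (he : e ≠ 0) {R : ℕ}
    (hR : H.len (u0 * L.x i ^ e * u0⁻¹) ≤ R) :
    ∃ u, H.len u ≤ tb H.D c T R ∧ u0 * L.x i ^ e * u0⁻¹ = u * L.x i ^ e * u⁻¹ := by
  refine ⟨L.pr i u0 1, ?_, ?_⟩
  · have h := L.tube (i := i) (u := u0) (t := 1) he (R := R) (by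
      rw [mul_one, H.d_one]
      exact hR)
    rw [H.d_one] at h
    exact h
  · unfold LS.pr
    generalize L.κ i (u0⁻¹ * 1) = k
    have h1 : L.x i ^ k * L.x i ^ e = L.x i ^ e * L.x i ^ k := by
      rw [← zpow_add, ← zpow_add, add_comm]
    rw [mul_inv_rev, mul_assoc u0 (L.x i ^ k), h1]
    group

end Pool.Agent.H319.FS
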