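import Pool.Agent.H319.FS.Lim
import Pool.Agent.H319.RAD.RF

/-!
# A relatively free group with a free subsemigroup and finitely generated commutator subgroup
-/

set_option autoImplicit false

namespace Pool.Agent.H319.FS

open Pool.Agent.TH54.BU Pool.Agent.Y45.MON Pool.Agent.Y872.MON Pool.Agent.H319.RAD

/-- the word -/
def uw (w : WP 2) (s t : ℤ) {G : Type} [Group G] (a b : G) : G := vv w 0 a b ^ s * vv w 1 a b ^ t

theorem map_uw (w : WP 2) (s t : ℤ) {G G' : Type} [Group G] [Group G'] (φ : G →* G') (a b : G) :
    φ (uw w s t a b) = uw w s t (φ a) (φ b) := by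
  unfold uw
  rw [map_mul, map_zpow, map_zpow, LF.map_vv', LF.map_vv']

theorem vv_comm {r : ℕ} (w : WP r) (hδ : w.δ = fun _ => 2) {G : Type} [Group G] (j : Fin r)
    {a b : G} (h : a * b = b * a) : vv w j a b = a := by
  have h1 : P0 w.M1 a b = a ^ (w.M1 + 1) := by
    unfold P0
    have h2 : b * a ^ w.M1 = a ^ w.M1 * b := ((show Commute a b from h).pow_left w.M1).eq.symm
    rw [mul_assoc a b, h2, pow_succ']
    group
  have h3 : X1 w.M1 w.m2 a b = 1 := by
    unfold X1
    rw [h1, ← pow_mul]
    have h4 : a * a ^ ((w.M1 + 1) * w.m2) = a ^ ((w.M1 + 1) * w.m2) * a :=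
      (Commute.self_pow a _).eq
    rw [h4]
    group
  unfold vv
  rw [h3]
  unfold Wj
  rw [hδ]
  simp only [one_pow, mul_one]
  have h5 : b * a⁻¹ * b⁻¹ = a⁻¹ := by
    rw [mul_inv_eq_iff_eq_mul, ← mul_left_inj a]
    have : a⁻¹ * b * a = b := by rw [mul_assoc, ← h, inv_mul_cancel_left]
    rw [this]
    group
  calc a ^ 2 * b * a⁻¹ * b⁻¹ = a ^ 2 * (b * a⁻¹ * b⁻¹) := by group
    _ = a := by rw [h5, pow_two, mul_inv_cancel_right]

theorem uw_comm (w : WP 2) (hδ : w.δ = fun _ => 2) {s t : ℤ} (hst : s + t = 1) {G : Type}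
    [Group G] {a b : G} (h : a * b = b * a) : uw w s t a b = a := by
  unfold uw
  rw [vv_comm w hδ 0 h, vv_comm w hδ 1 h, ← zpow_add, hst, zpow_one]

theorem lift_eq {G : Type} [Group G] (f : Bool → G) (s : FreeSemigroup Bool) :
    FreeSemigroup.lift f s = ((s.head :: s.tail).map f).prod := by
  have key : ∀ (l : List Bool) (c : G), l.foldl (fun a b => a * f b) c = c * (l.map f).prod := by
    intro l
    induction l with
    | nil => intro c; simp
    | cons i l ih =>
      intro c
      rw [List.foldl_cons, ih, List.map_cons, List.prod_cons, mul_assoc]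
  show s.tail.foldl (fun a b => a * f b) (f s.head) = _
  rw [key, List.map_cons, List.prod_cons]

section

variable (w : WP 2) (hδ : w.δ = fun _ => 2) {s t : ℤ} (hst : s + t = 1) (L : ℕ → Type)
  [∀ n, Group (L n)] (hL : ∀ n (a b : L n), a * b ≠ b * a → uw w s t a b = 1)

include hδ hst hL

theorem main_fs (x y : ∀ n, L n)
    (hpos : ∀ n (l l' : List Bool), l.length ≤ n + 1 → l'.length ≤ n + 1 →
      (l.map fun i => if i then x n else y n).prod =
        (l'.map fun i => if i then x n else y n).prod → l = l') :
    ∃ (G : Type) (_ : Group G) (X : Set G),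
      Subgroup.closure X = ⊤ ∧
      (∀ f : X → G, ∃ φ : G →* G, ∀ x : X, φ (x : G) = f x) ∧
      (∃ a b : G,
        Function.Injective
          (FreeSemigroup.lift (fun i : Bool => if i then a else b) : FreeSemigroup Bool → G)) ∧
      (commutator G).FG := by
  obtain ⟨Γ, hΓ⟩ : ∃ Γ : Type, Γ = ((n : ℕ) → L n) := ⟨_, rfl⟩
  let G := RF ((n : ℕ) → L n) Bool
  let a : G := gx ((n : ℕ) → L n) true
  let b : G := gx ((n : ℕ) → L n) false
  have hab : (fun i : Bool => if i then a else b) = gx ((n : ℕ) → L n) := by
    funext i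
    cases i <;> rfl
  obtain ⟨θ0, hθ0⟩ := gx_hom (Γ := (n : ℕ) → L n) (fun i : Bool => if i then x else y)
  have hinj : Function.Injective
      (FreeSemigroup.lift (fun i : Bool => if i then a else b) : FreeSemigroup Bool → G) := by
    intro u v huv
    rw [lift_eq, lift_eq] at huv
    obtain ⟨n, hn⟩ : ∃ n, n = max u.tail.length v.tail.length := ⟨_, rfl⟩
    have h1 := congrArg (fun g => θ0 g n) huv
    simp only [hab] at h1
    have h2 : ∀ l : List Bool, θ0 ((l.map (gx ((n : ℕ) → L n))).prod) n =
        (l.map fun i => if i then x n else y n).prod := by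
      intro l
      rw [map_list_prod, List.map_map]
      have h3 := map_list_prod (Pi.evalMonoidHom L n) (l.map (θ0 ∘ gx ((n : ℕ) → L n)))
      rw [List.map_map] at h3
      refine h3.trans ?_
      congr 2
      funext i
      show θ0 (gx ((n : ℕ) → L n) i) n = _
      rw [hθ0]
      cases i <;> rfl
    rw [h2, h2] at h1
    have h4 := hpos n _ _ (by simp only [List.length_cons]; omega)
      (by simp only [List.length_cons]; omega) h1
    rw [List.cons.injEq] at h4
    exact FreeSemigroup.ext h4.1 h4.2
  refine ⟨G, inferInstance, Set.range (gx ((n : ℕ) → L n)), gx_closure, ?_, ⟨a, b, hinj⟩, ?_⟩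
  · intro f
    obtain ⟨φ, hφ⟩ := gx_ext (Γ := (n : ℕ) → L n) (fun i : Bool => f ⟨gx _ i, ⟨i, rfl⟩⟩)
    refine ⟨φ, ?_⟩
    rintro ⟨_, i, rfl⟩
    exact hφ i
  · -- the commutator subgroup
    obtain ⟨ψ, hψ⟩ := gx_ext (Γ := (n : ℕ) → L n)
      (fun i : Bool => if i then a * (uw w s t a b)⁻¹ else b * (uw w s t b a)⁻¹)
    have hψa : ψ a = a * (uw w s t a b)⁻¹ := hψ true
    have hψb : ψ b = b * (uw w s t b a)⁻¹ := hψ false
    have hclo : Subgroup.closure {a, b} = (⊤ : Subgroup G) := by
      rw [← gx_closure (Γ := (n : ℕ) → L n) (I := Bool)]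
      congr 1
      ext g
      simp only [Set.mem_insert_iff, Set.mem_singleton_iff, Set.mem_range]
      constructor
      · rintro (rfl | rfl)
        · exact ⟨true, rfl⟩
        · exact ⟨false, rfl⟩
      · rintro ⟨i, rfl⟩
        cases i
        · exact Or.inr rfl
        · exact Or.inl rfl
    have hfix : ∀ g ∈ commutator G, ψ g = g := by
      intro g hg
      apply RF_eq
      intro θ
      funext n
      -- the homomorphism to `L n`
      obtain ⟨θn, hθn⟩ : ∃ θn : G →* L n, ∀ g, θn g = θ g n :=
        ⟨(Pi.evalMonoidHom L n).comp θ, fun _ => rfl⟩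
      rw [← hθn, ← hθn]
      by_cases hc : θn a * θn b = θn b * θn a
      · have e1 : θn.comp ψ = 1 := by
          apply MonoidHom.eq_of_eqOn_dense hclo
          rintro _ (rfl | rfl)
          · show θn (ψ a) = 1
            rw [hψa, map_mul, map_inv, map_uw, uw_comm w hδ hst hc, mul_inv_cancel]
          · show θn (ψ b) = 1
            rw [hψb, map_mul, map_inv, map_uw, uw_comm w hδ hst hc.symm, mul_inv_cancel]
        have e2 : θn g = 1 := by
          have h1 : commutator G ≤ θn.ker := by
            rw [commutator_def, Subgroup.commutator_le]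
            have hcen : ∀ g1 g2 : G, θn g1 * θn g2 = θn g2 * θn g1 := by
              have h2 : ∀ c ∈ ({a, b} : Set G), ∀ d ∈ ({a, b} : Set G),
                  θn c * θn d = θn d * θn c := by
                rintro _ (rfl | rfl) _ (rfl | rfl)
                · rfl
                · exact hc
                · exact hc.symm
                · rfl
              intro g1 g2
              have m1 : g1 ∈ Subgroup.closure {a, b} := by rw [hclo]; trivial
              have m2 : g2 ∈ Subgroup.closure {a, b} := by rw [hclo]; trivial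
              induction m1, m2 using Subgroup.closure_induction₂ with
              | mem p q hp hq => exact h2 p hp q hq
              | one_left p hp => simp
              | one_right p hp => simp
              | mul_left p q z hp hq hz h3 h4 =>
                rw [map_mul]
                exact (Commute.mul_left h3 h4).eq
              | mul_right p q z hp hq hz h3 h4 =>
                rw [map_mul]
                exact (Commute.mul_right h3 h4).eq
              | inv_left p q hp hq h3 =>
                rw [map_inv]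
                exact (Commute.inv_left h3).eq
              | inv_right p q hp hq h3 =>
                rw [map_inv]
                exact (Commute.inv_right h3).eq
            intro g1 _ g2 _
            rw [MonoidHom.mem_ker, map_commutatorElement, commutatorElement_eq_one_iff_mul_comm]
            exact hcen g1 g2
          exact h1 hg
        have e3 : θn (ψ g) = (θn.comp ψ) g := rfl
        rw [e2, e3, e1]
        rfl
      · have e1 : θn.comp ψ = θn := by
          apply MonoidHom.eq_of_eqOn_dense hclo
          rintro _ (rfl | rfl)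
          · show θn (ψ a) = θn a
            rw [hψa, map_mul, map_inv, map_uw, hL n _ _ hc, inv_one, mul_one]
          · show θn (ψ b) = θn b
            rw [hψb, map_mul, map_inv, map_uw, hL n _ _ (Ne.symm hc), inv_one, mul_one]
        have e3 : θn (ψ g) = (θn.comp ψ) g := rfl
        rw [e3, e1]
    have hab1 : ∀ c d : G, c * (uw w s t c d)⁻¹ ∈ commutator G := by
      intro c d
      rw [← Abelianization.ker_of, MonoidHom.mem_ker, map_mul, map_inv, map_uw,
        uw_comm w hδ hst (mul_comm _ _), mul_inv_cancel]
    have hfin : commutator G = Subgroup.closure {ψ a, ψ b} := by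
      apply le_antisymm
      · intro g hg
        rw [← hfix g hg, ← Set.image_pair, ← MonoidHom.map_closure, hclo]
        exact ⟨g, trivial, rfl⟩
      · rw [Subgroup.closure_le]
        rintro _ (rfl | rfl)
        · rw [hψa]
          exact hab1 a b
        · rw [hψb]
          exact hab1 b a
    rw [hfin]
    exact (Subgroup.fg_iff _).2 ⟨_, rfl, Set.toFinite _⟩

end

/-- the main theorem -/
theorem main_thm :
    ∃ (G : Type) (_ : Group G) (X : Set G),
      Subgroup.closure X = ⊤ ∧
      (∀ f : X → G, ∃ φ : G →* G, ∀ x : X, φ (x : G) = f x) ∧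
      (∃ a b : G,
        Function.Injective
          (FreeSemigroup.lift (fun i : Bool => if i then a else b) : FreeSemigroup Bool → G)) ∧
      (commutator G).FG := by
  obtain ⟨w, n0, Big, hw, hn0, hlim⟩ := limF 2 (fun _ => 2) (fun _ => Or.inr rfl)
  obtain ⟨p, hp1, hp⟩ := Nat.exists_infinite_primes n0
  obtain ⟨q, hq1, hq⟩ := Nat.exists_infinite_primes (p + 1)
  have hcop : IsCoprime (p : ℤ) q :=
    Nat.isCoprime_iff_coprime.2 ((Nat.coprime_primes hp hq).2 (by omega))
  obtain ⟨s', t', hst⟩ := hcop
  have hex : ∀ n : ℕ, ∃ (L : Type) (_ : Group L) (x y : L),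
      (∀ (j : Fin 2) (a b : L), a * b ≠ b * a → vv w j a b ^ (if j = 0 then p else q) = 1) ∧
      ∀ l l' : List Bool, l.length ≤ n + 1 → l'.length ≤ n + 1 →
        (l.map fun i => if i then x else y).prod = (l'.map fun i => if i then x else y).prod →
        l = l' := by
    intro n
    obtain ⟨m, hm1, hm⟩ := Nat.exists_infinite_primes (n0 + Big (n + 1))
    have hN : p * q * m ≠ 1 := by
      intro h
      have h1 : m ∣ 1 := by rw [← h]; exact dvd_mul_left _ _
      exact hm.one_lt.ne' (Nat.dvd_one.1 h1)
    have hm2 : Big (n + 1) ≤ p * q * m := by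
      have h1 : 1 ≤ p * q := Nat.mul_pos hp.pos hq.pos
      calc Big (n + 1) ≤ m := by omega
        _ = 1 * m := (one_mul m).symm
        _ ≤ p * q * m := Nat.mul_le_mul_right _ h1
    obtain ⟨L, iL, x, y, -, h2, h3⟩ := hlim (p * q * m) (n + 1) hN (by omega) (by
      intro k hk hk2
      rcases (Nat.Prime.dvd_mul hk).1 hk2 with h | h
      · rcases (Nat.Prime.dvd_mul hk).1 h with h | h
        · rw [(Nat.prime_dvd_prime_iff_eq hk hp).1 h]
          exact hp1
        · rw [(Nat.prime_dvd_prime_iff_eq hk hq).1 h]
          omega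
      · rw [(Nat.prime_dvd_prime_iff_eq hk hm).1 h]
        omega) hm2 (fun j => if j = 0 then p else q) (by
      intro j
      split_ifs
      · exact ⟨Dvd.intro _ (mul_assoc p q m).symm, hp.one_lt.ne'⟩
      · exact ⟨Dvd.intro (p * m) (by ring), hq.one_lt.ne'⟩)
    exact ⟨L, iL, x, y, h2, h3⟩
  choose L iL x y h1 h2 using hex
  refine main_fs w hw (s := s' * p) (t := t' * q) hst L ?_ x y h2
  intro n a b hab
  have e0 := h1 n 0 a b hab
  have e1 := h1 n 1 a b hab
  rw [if_pos rfl] at e0
  rw [if_neg (by decide)] at e1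
  unfold uw
  rw [mul_comm s', mul_comm t', zpow_mul, zpow_mul, zpow_natCast, zpow_natCast, e0, e1, one_zpow,
    one_zpow, mul_one]

end Pool.Agent.H319.FS
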