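import Pool.Agent.H319.FS.Pass

/-!
# The words of one step are not followed by paths of `P` in the quotient
-/

set_option autoImplicit false

namespace Pool.Agent.H319.FS

open Pool.Agent.TH54.BU Pool.Agent.Y45.MON

/-- rescaling -/
theorem pi_resc {G : Type} [Group G] {Q F' : GH G} {κ Λ' Λ : ℕ} (hκ : 1 ≤ κ)
    (h1 : ∀ q, Q.len q ≤ κ * F'.len q) (h2 : ∀ q, κ * F'.len q ≤ Q.len q + (κ - 1))
    (hΛ : Λ' + κ ≤ κ * Λ + 1) {P : Set G} (hP : PI Q Λ' P) : PI F' Λ P := by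
  intro σ hσ τ hτ h
  have h0 := hP σ hσ τ hτ h
  have h3 := h2 σ
  have h4 := h2 τ
  have h5 : Q.d h σ ≤ κ * F'.d h σ := h1 _
  have h6 : Q.d 1 (h * τ) ≤ κ * F'.d 1 (h * τ) := h1 _
  have h7 : κ * (F'.len σ + F'.len τ) ≤ κ * (F'.d h σ + F'.d 1 (h * τ) + 2 * Λ) := by
    rw [mul_add, mul_add, mul_add, mul_left_comm]
    omega
  exact Nat.le_of_mul_le_mul_left h7 hκ

variable {G : Type} [Group G] {H : GH G} {c θ T : ℕ} {L : LS H c θ T} {n : L.ι → ℕ} {E : GH G}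
  {Θ : ℕ} {M : Subgroup G} [M.Normal] {Q : GH (G ⧸ M)} {A : L.ι → ℕ} {P : Set G}

/-- an infinite order word has large powers -/
theorem pow_large (D : Dat L n E Θ M Q A P) {Te : ℕ} (hS : Q.Stab Te) {t0 : ℕ} {u W : G}
    (hu : H.len u ≤ t0) (hinf : ¬ IsOfFinOrder ((u * W * u⁻¹ : G) : G ⧸ M)) {q b : ℕ}
    (hq : Te * (b + 2 * t0) ≤ q) (N : ℕ) (hN : q ≤ N) : b ≤ E.len (W ^ N) := by
  have h1 := hS _ hinf N
  have h2 := D.le (u * W ^ N * u⁻¹)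
  have h3 : ((u * W ^ N * u⁻¹ : G) : G ⧸ M) = ((u * W * u⁻¹ : G) : G ⧸ M) ^ N := by
    rw [← QuotientGroup.mk_pow, conj_pow]
  rw [h3] at h2
  have h4 : E.len (u * W ^ N * u⁻¹) ≤ E.len (W ^ N) + 2 * t0 := by
    have e1 := E.len_mul (u * W ^ N) u⁻¹
    have e2 := E.len_mul u (W ^ N)
    have e3 := (D.cone.le u).trans hu
    rw [E.len_inv] at e1
    omega
  have hTe : 0 < Te := by
    rcases Nat.eq_zero_or_pos Te with h | h
    · exfalso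
      have := hS _ hinf 1
      rw [h] at this
      omega
    · exact h
  have h5 : Te * (b + 2 * t0) ≤ Te * (E.len (W ^ N) + 2 * t0) :=
    (hq.trans hN).trans (h1.trans (Nat.mul_le_mul_left _ (h2.trans h4)))
  have := Nat.le_of_mul_le_mul_left h5 hTe
  omega

/-- the words: a path of `P` which follows a power of the word in the quotient gives a path which
follows the middle lines -/
theorem nt_word (D : Dat L n E Θ M Q A P) {κ c1 K1 t0 q Te ρ F p : ℕ} (hκ : 1 ≤ κ)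
    {F' : GH (G ⧸ M)} (hF1 : ∀ q, Q.len q ≤ κ * F'.len q)
    (hF2 : ∀ q, κ * F'.len q ≤ Q.len q + (κ - 1)) (hS : Q.Stab Te)
    {i : L.ι} {cs : ℕ → G} {f : ℕ → ℤ} {v : ℕ → G} {W : G} (B : BW L Θ ρ F p i cs f v W)
    {u : G} (hu : H.len u ≤ t0) (hp : 1 ≤ p) (hK : K1 = 2 * q + 2)
    (hq : Te * (2 * (ρ + 1) + t0 + κ * (c1 + 1) + 1 + 2 * t0) ≤ q)
    (hbig : ∀ k, (cst L 0 ρ + 2 * (T * (t0 + c)) + T * Θ : ℕ) ≤ |f k|)
    (hA : ∀ j, F + cst L 0 ρ + 2 * (T * (t0 + c)) < A j)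
    (hinf : ¬ IsOfFinOrder ((u * W * u⁻¹ : G) : G ⧸ M))
    (hno : ∀ σ ∈ P, ∀ (g : G) (ε : ℤ), (ε = 1 ∨ ε = -1) →
      (∀ k, (k = p * q ∨ k = p * q + 1) → |L.s i (g * v (k + 1)) 1 σ - ε * f k| ≤
        (cst L 0 ρ + 2 * (T * (t0 + c)) + 2 * (T * Θ) : ℕ)) → False) :
    NT F' c1 K1 ((fun g : G => (g : G ⧸ M)) '' P) ((u * W * u⁻¹ : G) : G ⧸ M) := by
  rintro _ ⟨σ, hσ, rfl⟩ a b hab
  by_contra hcon
  push Not at hcon
  change F'.d 1 a + F'.d a b + F'.d b (σ : G ⧸ M) ≤ F'.len (σ : G ⧸ M) + c1 at hcon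
  have hE : ∀ N, q ≤ N → 2 * (ρ + 1) + t0 + κ * (c1 + 1) + 1 ≤ E.len (W ^ N) :=
    fun N hN => pow_large D hS hu hinf hq N hN
  -- the estimate in `Q`
  have hQ : Q.d 1 a + Q.d a b + Q.d b (σ : G ⧸ M) ≤ Q.len (σ : G ⧸ M) + κ * (c1 + 1) := by
    have h1 : Q.d 1 a ≤ κ * F'.d 1 a := hF1 _
    have h2 : Q.d a b ≤ κ * F'.d a b := hF1 _
    have h3 : Q.d b (σ : G ⧸ M) ≤ κ * F'.d b (σ : G ⧸ M) := hF1 _
    have h4 := hF2 (σ : G ⧸ M)
    have h5 := Nat.mul_le_mul_left κ hcon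
    rw [mul_add, mul_add, mul_add] at h5
    rw [mul_add κ c1 1]
    omega
  have hpow : ((u * W ^ K1 * u⁻¹ : G) : G ⧸ M) = ((u * W * u⁻¹ : G) : G ⧸ M) ^ K1 := by
    rw [← QuotientGroup.mk_pow, conj_pow]
  have hwin : ∀ (j : L.ι) (w : G), |L.s j w 1 (u * W ^ K1 * u⁻¹)| < A j := by
    intro j w
    have h1 := B.winu hu j w K1
    have h2 := hA j
    have h3 : ((F + cst L 0 ρ + 2 * (T * (t0 + c)) : ℕ) : ℤ) < A j := by exact_mod_cast h2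
    push_cast at h1 h3 ⊢
    linarith
  have hwin' : ∀ (j : L.ι) (w : G), |L.s j w 1 (u * W ^ K1 * u⁻¹)⁻¹| < A j := fun j w => by
    rw [s_inv, abs_neg]
    exact hwin j _
  have fin : ∀ a' b' : G, (b' = a' * (u * W ^ K1 * u⁻¹) ∨ a' = b' * (u * W ^ K1 * u⁻¹)) →
      E.d 1 a' + E.d a' b' + E.d b' σ ≤ E.len σ + κ * (c1 + 1) → False := by
    intro a' b' hab' h
    obtain ⟨g, ε, hε, h1⟩ := B.main D.cone hu hp hK.ge hE hbig hab' h
    exact hno σ hσ g ε hε h1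
  rcases hab with h | h
  · rw [← hpow] at h
    subst h
    obtain ⟨a', ha'⟩ := D.viol hσ hwin hQ
    exact fin a' _ (Or.inl rfl) ha'
  · rw [← hpow] at h
    have hb : b = a * ((u * W ^ K1 * u⁻¹ : G)⁻¹ : G) := by
      rw [QuotientGroup.mk_inv, h]
      group
    subst hb
    obtain ⟨a', ha'⟩ := D.viol hσ hwin' hQ
    exact fin a' _ (Or.inr (by group)) ha'

end Pool.Agent.H319.FS
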