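import Pool.Agent.H319.FS.Trans
import Pool.Graph.R_seed8.Y45.MON.Geo

/-!
# Paths which pass through a power of a broken line follow its middle lines
-/

set_option autoImplicit false

namespace Pool.Agent.H319.FS

open Pool.Agent.TH54.BU Pool.Agent.Y45.MON

variable {G : Type} [Group G] {H : GH G} {c θ T : ℕ} {L : LS H c θ T} {E : GH G} {Θ : ℕ}

/-- a cone geodesic with a large projection to a line meets the line -/
theorem edge_pt (C : L.Cone E Θ) (i : L.ι) (w p q : G) (h : Θ ≤ L.D i w p q) :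
    ∃ y, L.On i w y ∧ E.d p y + E.d y q = E.d p q := by
  obtain ⟨γ, h0, h1, hG⟩ := E.exists_geod p q
  obtain ⟨k, hk, hk1, -⟩ := C.e2 i w γ (E.d p q) hG (by rw [h0, h1]; exact h)
  have e2 := hG.sub (Nat.zero_le k) hk.le
  have e3 := hG.sub hk.le le_rfl
  rw [h0] at e2
  rw [h1] at e3
  exact ⟨γ k, hk1, by omega⟩

theorem on_on (C : L.Cone E Θ) (i : L.ι) (w a b : G) (ha : L.On i w a) (hb : L.On i w b) :
    E.d a b ≤ 1 := by
  unfold GH.d
  rw [C.le_one]
  right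
  obtain ⟨m, hm⟩ := Subgroup.mem_zpowers_iff.1 ha
  obtain ⟨n, hn⟩ := Subgroup.mem_zpowers_iff.1 hb
  refine ⟨i, -m + n, ?_⟩
  rw [zpow_add, zpow_neg, hm, hn]
  group

/-- an almost geodesic path `a`, `b`, `c`, `d` for the cone metric, and a line followed by `b`, `c`
which is far from `b`: it is not followed by `a`, `b` -/
theorem pass1 (C : L.Cone E Θ) {m : ℕ} {a b e d : G}
    (h : E.d a b + E.d b e + E.d e d ≤ E.d a d + m) (i : L.ι) (w : G)
    (fb : ∀ y, L.On i w y → m + 1 < 2 * E.d b y) (hbig : Θ ≤ L.D i w b e) :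
    L.D i w a b < Θ := by
  by_contra hcon
  push Not at hcon
  obtain ⟨y, hy, h1⟩ := edge_pt C i w a b hcon
  obtain ⟨z, hz, h2⟩ := edge_pt C i w b e hbig
  have h3 := on_on C i w y z hy hz
  have h4 := fb y hy
  have h5 := fb z hz
  have t1 := E.d_tri a y d
  have t2 := E.d_tri y z d
  have t3 := E.d_tri z e d
  have c1 := E.d_comm y b
  omega

theorem pass2 (C : L.Cone E Θ) {m : ℕ} {a b e d : G}
    (h : E.d a b + E.d b e + E.d e d ≤ E.d a d + m) (i : L.ι) (w : G)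
    (fe : ∀ y, L.On i w y → m + 1 < 2 * E.d e y) (hbig : Θ ≤ L.D i w b e) :
    L.D i w e d < Θ := by
  have h1 := pass1 C (m := m) (a := d) (b := e) (e := b) (d := a) (by
    have c1 := E.d_comm d e
    have c2 := E.d_comm e b
    have c3 := E.d_comm b a
    have c4 := E.d_comm d a
    omega) i w fe (by rw [L.wf_D_symm]; exact hbig)
  rwa [L.wf_D_symm] at h1

theorem s_le (i : L.ι) (u p q : G) {m : ℕ} (h : H.d p q ≤ m) :
    |L.s i u p q| ≤ (T * (m + c) : ℕ) := by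
  refine (L.rg_s_le i u p q).trans ?_
  have h1 := L.az_lip i u p q
  exact_mod_cast Nat.mul_le_mul_left T (h1.trans (by omega))

/-- the displacement along a middle line of the middle part is the displacement of the path -/
theorem pass (C : L.Cone E Θ) {m : ℕ} {a b e d : G}
    (h : E.d a b + E.d b e + E.d e d ≤ E.d a d + m) (i : L.ι) (w : G)
    (fb : ∀ y, L.On i w y → m + 1 < 2 * E.d b y) (fe : ∀ y, L.On i w y → m + 1 < 2 * E.d e y)
    (hbig : (T * Θ : ℕ) ≤ |L.s i w b e|) :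
    |L.s i w a d - L.s i w b e| ≤ (2 * (T * Θ) : ℕ) := by
  have hD : Θ ≤ L.D i w b e := by
    refine L.cl_D_ge i w b e Θ ?_
    rw [Int.abs_eq_natAbs] at hbig
    exact_mod_cast hbig
  have h1 := pass1 C h i w fb hD
  have h2 := pass2 C h i w fe hD
  have h3 : |L.s i w a b| ≤ (T * Θ : ℕ) :=
    (L.rg_s_le i w a b).trans (by exact_mod_cast Nat.mul_le_mul_left T h1.le)
  have h4 : |L.s i w e d| ≤ (T * Θ : ℕ) :=
    (L.rg_s_le i w e d).trans (by exact_mod_cast Nat.mul_le_mul_left T h2.le)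
  have h5 := L.wf_s_add i w a b d
  have h6 := L.wf_s_add i w b e d
  have h7 : L.s i w a d - L.s i w b e = L.s i w a b + L.s i w e d := by linarith
  rw [h7]
  refine (abs_add_le _ _).trans ?_
  push_cast at h3 h4 ⊢
  linarith

/-- a broken line, periodic with the word `W` -/
structure BW (L : LS H c θ T) (Θ ρ F p : ℕ) (i : L.ι) (cs : ℕ → G) (f : ℕ → ℤ) (v : ℕ → G)
    (W : G) : Prop where
  br : Br L i cs f v
  len : ∀ k, H.len (cs k) ≤ ρ
  big : ∀ k, (cst L Θ ρ : ℤ) < |f k|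
  up : ∀ k, |f k| ≤ F
  per : ∀ N, v (p * N) = W ^ N

theorem cst0_le (Θ ρ : ℕ) : cst L 0 ρ ≤ cst L Θ ρ := by
  unfold cst
  have : T * (c + θ + 0 + ρ + 1) ≤ T * (c + θ + Θ + ρ + 1) := Nat.mul_le_mul_left _ (by omega)
  omega

variable {ρ F p : ℕ} {i : L.ι} {cs : ℕ → G} {f : ℕ → ℤ} {v : ℕ → G} {W : G}

namespace BW

theorem win (B : BW L Θ ρ F p i cs f v W) (j : L.ι) (w : G) (N : ℕ) :
    |L.s j w 1 (W ^ N)| ≤ F + cst L 0 ρ := by
  have h1 := (aGwin G H c θ T L i cs f v ρ F B.br B.len (fun k => lt_of_le_of_lt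
    (by exact_mod_cast cst0_le Θ ρ) (B.big k)) B.up).1 j w (p * N)
  rwa [B.br.v0, B.per] at h1

theorem mid (B : BW L Θ ρ F p i cs f v W) (k N : ℕ) (h : k + 1 ≤ p * N) :
    |L.s i (v (k + 1)) 1 (W ^ N) - f k| ≤ cst L 0 ρ := by
  have hthr : L.thr = T * (2 * c + θ + 1) := rfl
  have hcst : cst L 0 ρ = 1000 * (T * (c + θ + 0 + ρ + 1) + 1) := rfl
  have e1 : T * (ρ + c + θ) ≤ T * (c + θ + 0 + ρ + 1) := Nat.mul_le_mul_left _ (by omega)
  have e2 : T * (2 * c + θ + 1) ≤ 2 * (T * (c + θ + 0 + ρ + 1)) := by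
    rw [← mul_assoc, mul_comm 2 T, mul_assoc]
    exact Nat.mul_le_mul_left _ (by omega)
  have hbig : 4 * (T * (ρ + c + θ)) + 8 * L.thr + 8 ≤ cst L Θ ρ := by
    have := cst0_le (L := L) Θ ρ
    omega
  obtain ⟨-, -, -, -, h5, -, -⟩ := aGen G H c θ T L i cs f v (T * (ρ + c + θ)) B.br
    (fun k => aPcb G H c θ T L i (cs k) ρ (B.br.nc k) (B.len k))
    (fun k => lt_of_le_of_lt (by exact_mod_cast hbig) (B.big k))
  have h6 := h5 k (p * N) h
  rw [B.br.v0, B.per] at h6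
  refine h6.trans ?_
  have : 2 * (T * (ρ + c + θ) + L.thr) ≤ cst L 0 ρ := by omega
  exact_mod_cast this

theorem Estep (B : BW L Θ ρ F p i cs f v W) (C : L.Cone E Θ) (k : ℕ) (t : ℤ) :
    E.d (v k) (v (k + 1) * L.x i ^ t) ≤ ρ + 1 := by
  unfold GH.d
  rw [B.br.vs]
  have e : (v k)⁻¹ * (v k * cs k * L.x i ^ f k * L.x i ^ t) = cs k * L.x i ^ (f k + t) := by
    rw [zpow_add]
    group
  rw [e]
  have h1 := E.len_mul (cs k) (L.x i ^ (f k + t))
  have h2 := (C.le (cs k)).trans (B.len k)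
  have h3 := (C.le_one (L.x i ^ (f k + t))).2 (Or.inr ⟨i, _, rfl⟩)
  omega

/-- the middle lines are far from a point -/
theorem far (B : BW L Θ ρ F p i cs f v W) (C : L.Cone E Θ) {q k : ℕ}
    (hk : k = p * q ∨ k = p * q + 1) (t : ℤ) (y : G) :
    E.d y (W ^ q) ≤ E.d y (v (k + 1) * L.x i ^ t) + 2 * (ρ + 1) := by
  have t1 := E.d_tri y (v (k + 1) * L.x i ^ t) (W ^ q)
  have c1 := E.d_comm (v (k + 1) * L.x i ^ t) (W ^ q)
  rcases hk with rfl | rfl
  · have h1 := B.Estep C (p * q) t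
    rw [B.per] at h1
    omega
  · have h1 := B.Estep C (p * q) 0
    have h2 := B.Estep C (p * q + 1) t
    rw [B.per, zpow_zero, mul_one] at h1
    have t2 := E.d_tri (W ^ q) (v (p * q + 1)) (v (p * q + 1 + 1) * L.x i ^ t)
    omega

/-- the displacements of a conjugate of a power -/
theorem winu (B : BW L Θ ρ F p i cs f v W) {t0 : ℕ} {u : G} (hu : H.len u ≤ t0) (j : L.ι)
    (w : G) (N : ℕ) : |L.s j w 1 (u * W ^ N * u⁻¹)| ≤ F + cst L 0 ρ + 2 * (T * (t0 + c) : ℕ) := by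
  have h1 := L.wf_s_add j w 1 u (u * W ^ N)
  have h2 := L.wf_s_add j w 1 (u * W ^ N) (u * W ^ N * u⁻¹)
  have h3 : |L.s j w 1 u| ≤ (T * (t0 + c) : ℕ) := s_le j w 1 u (by rw [H.d_one]; exact hu)
  have h4 : |L.s j w (u * W ^ N) (u * W ^ N * u⁻¹)| ≤ (T * (t0 + c) : ℕ) := s_le j w _ _ (by
    unfold GH.d
    rw [inv_mul_cancel_left, H.len_inv]
    exact hu)
  have h5 : |L.s j w u (u * W ^ N)| ≤ F + cst L 0 ρ := by
    rw [s_tr]
    exact B.win j _ N
  rw [← h2, ← h1]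
  refine (abs_add_le _ _).trans ?_
  have h6 := abs_add_le (L.s j w 1 u) (L.s j w u (u * W ^ N))
  linarith

/-- the displacement of a conjugate of a power along a middle line -/
theorem midu (B : BW L Θ ρ F p i cs f v W) {t0 : ℕ} {u : G} (hu : H.len u ≤ t0) (g : G)
    (k N : ℕ) (h : k + 1 ≤ p * N) :
    |L.s i (g * u * v (k + 1)) g (g * (u * W ^ N * u⁻¹)) - f k| ≤
      cst L 0 ρ + 2 * (T * (t0 + c) : ℕ) := by
  set w := g * u * v (k + 1) with hw
  have e0 : g * (u * W ^ N * u⁻¹) = g * u * W ^ N * u⁻¹ := by group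
  rw [e0]
  have h1 := L.wf_s_add i w g (g * u) (g * u * W ^ N)
  have h2 := L.wf_s_add i w g (g * u * W ^ N) (g * u * W ^ N * u⁻¹)
  have h3 : |L.s i w g (g * u)| ≤ (T * (t0 + c) : ℕ) := s_le i w _ _ (by
    unfold GH.d
    rw [inv_mul_cancel_left]
    exact hu)
  have h4 : |L.s i w (g * u * W ^ N) (g * u * W ^ N * u⁻¹)| ≤ (T * (t0 + c) : ℕ) :=
    s_le i w _ _ (by
      unfold GH.d
      rw [inv_mul_cancel_left, H.len_inv]
      exact hu)
  have h5 : |L.s i w (g * u) (g * u * W ^ N) - f k| ≤ cst L 0 ρ := by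
    rw [s_tr, hw, inv_mul_cancel_left]
    exact B.mid k N h
  rw [← h2, ← h1]
  have h6 : L.s i w g (g * u) + L.s i w (g * u) (g * u * W ^ N) +
      L.s i w (g * u * W ^ N) (g * u * W ^ N * u⁻¹) - f k =
      (L.s i w (g * u) (g * u * W ^ N) - f k) + (L.s i w g (g * u) +
      L.s i w (g * u * W ^ N) (g * u * W ^ N * u⁻¹)) := by ring
  rw [h6]
  refine (abs_add_le _ _).trans ?_
  have h7 := abs_add_le (L.s i w g (g * u)) (L.s i w (g * u * W ^ N) (g * u * W ^ N * u⁻¹))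
  linarith

/-- a path which passes through a conjugate of a large power of `W` follows its middle lines -/
theorem main (B : BW L Θ ρ F p i cs f v W) (C : L.Cone E Θ) {t0 m q K1 : ℕ} {u : G}
    (hu : H.len u ≤ t0) (hp : 1 ≤ p) (hK : 2 * q + 2 ≤ K1)
    (hE : ∀ N, q ≤ N → 2 * (ρ + 1) + t0 + m + 1 ≤ E.len (W ^ N))
    (hbig : ∀ k, (cst L 0 ρ + 2 * (T * (t0 + c)) + T * Θ : ℕ) ≤ |f k|) {σ a b : G}
    (hab : b = a * (u * W ^ K1 * u⁻¹) ∨ a = b * (u * W ^ K1 * u⁻¹))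
    (h : E.d 1 a + E.d a b + E.d b σ ≤ E.len σ + m) :
    ∃ (g : G) (ε : ℤ), (ε = 1 ∨ ε = -1) ∧ ∀ k, (k = p * q ∨ k = p * q + 1) →
      |L.s i (g * v (k + 1)) 1 σ - ε * f k| ≤
        (cst L 0 ρ + 2 * (T * (t0 + c)) + 2 * (T * Θ) : ℕ) := by
  -- the two ends of the power are far from the middle lines
  have hEu : E.len u ≤ t0 := (C.le u).trans hu
  have hfar1 : ∀ g k, (k = p * q ∨ k = p * q + 1) → ∀ y, L.On i (g * u * v (k + 1)) y →
      m + 1 < 2 * E.d g y := by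
    intro g k hk y hy
    obtain ⟨t, ht⟩ := Subgroup.mem_zpowers_iff.1 hy
    have ey : y = g * u * (v (k + 1) * L.x i ^ t) := by rw [ht]; group
    have h1 := B.far C hk t 1
    rw [E.d_one] at h1
    have h2 := hE q le_rfl
    have h3 := E.d_tri (g * u) g y
    have h4 : E.d (g * u) g ≤ t0 := by
      rw [E.d_comm]
      unfold GH.d
      rw [inv_mul_cancel_left]
      exact hEu
    have h5 : E.d (g * u) y = E.d 1 (v (k + 1) * L.x i ^ t) := by
      rw [ey]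
      have := E.d_mul (g * u) 1 (v (k + 1) * L.x i ^ t)
      rwa [mul_one] at this
    omega
  have hfar2 : ∀ g k, (k = p * q ∨ k = p * q + 1) → ∀ y, L.On i (g * u * v (k + 1)) y →
      m + 1 < 2 * E.d (g * (u * W ^ K1 * u⁻¹)) y := by
    intro g k hk y hy
    obtain ⟨t, ht⟩ := Subgroup.mem_zpowers_iff.1 hy
    have ey : y = g * u * (v (k + 1) * L.x i ^ t) := by rw [ht]; group
    have h1 := B.far C hk t (W ^ K1)
    have h2 := hE (K1 - q) (by omega)
    have h2' : E.d (W ^ K1) (W ^ q) = E.len (W ^ (K1 - q)) := by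
      rw [E.d_comm]
      unfold GH.d
      congr 1
      rw [inv_mul_eq_iff_eq_mul, ← pow_add]
      congr 1
      omega
    have h3 := E.d_tri (g * u * W ^ K1) (g * (u * W ^ K1 * u⁻¹)) y
    have h4 : E.d (g * u * W ^ K1) (g * (u * W ^ K1 * u⁻¹)) ≤ t0 := by
      unfold GH.d
      have : (g * u * W ^ K1)⁻¹ * (g * (u * W ^ K1 * u⁻¹)) = u⁻¹ := by group
      rw [this, E.len_inv]
      exact hEu
    have h5 : E.d (g * u * W ^ K1) y = E.d (W ^ K1) (v (k + 1) * L.x i ^ t) := by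
      rw [ey, E.d_mul]
    omega
  have hpq : ∀ k, (k = p * q ∨ k = p * q + 1) → k + 1 ≤ p * K1 := by
    intro k hk
    have h1 : p * (2 * q + 2) ≤ p * K1 := Nat.mul_le_mul_left _ hK
    have h2 : p * (2 * q + 2) = 2 * (p * q) + 2 * p := by ring
    omega
  have hmid : ∀ g k, (k = p * q ∨ k = p * q + 1) →
      |L.s i (g * u * v (k + 1)) g (g * (u * W ^ K1 * u⁻¹)) - f k| ≤
        (cst L 0 ρ + 2 * (T * (t0 + c)) : ℕ) := by
    intro g k hk
    have := B.midu hu g k K1 (hpq k hk)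
    push_cast at this ⊢
    exact this
  rw [← E.d_one] at h
  rcases hab with rfl | rfl
  · refine ⟨a * u, 1, Or.inl rfl, fun k hk => ?_⟩
    have h1 := hmid a k hk
    have h2 : (T * Θ : ℕ) ≤ |L.s i (a * u * v (k + 1)) a (a * (u * W ^ K1 * u⁻¹))| := by
      have h3 := hbig k
      have h4 := abs_sub_abs_le_abs_sub (f k) (L.s i (a * u * v (k + 1)) a
        (a * (u * W ^ K1 * u⁻¹)))
      rw [abs_sub_comm] at h4
      push_cast at h1 h3 ⊢
      linarith
    have h3 := pass C h i (a * u * v (k + 1)) (hfar1 a k hk) (hfar2 a k hk) h2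
    have h4 := abs_add_le (L.s i (a * u * v (k + 1)) 1 σ -
      L.s i (a * u * v (k + 1)) a (a * (u * W ^ K1 * u⁻¹)))
      (L.s i (a * u * v (k + 1)) a (a * (u * W ^ K1 * u⁻¹)) - f k)
    rw [sub_add_sub_cancel] at h4
    rw [one_mul]
    push_cast at h1 h3 ⊢
    linarith
  · refine ⟨b * u, -1, Or.inr rfl, fun k hk => ?_⟩
    have h1 := hmid b k hk
    have h2 : (T * Θ : ℕ) ≤ |L.s i (b * u * v (k + 1)) (b * (u * W ^ K1 * u⁻¹)) b| := by
      have h3 := hbig k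
      have h4 := abs_sub_abs_le_abs_sub (f k) (L.s i (b * u * v (k + 1)) b
        (b * (u * W ^ K1 * u⁻¹)))
      rw [abs_sub_comm] at h4
      rw [L.wf_s_symm, abs_neg]
      push_cast at h1 h3 ⊢
      linarith
    have h3 := pass C h i (b * u * v (k + 1)) (hfar2 b k hk) (hfar1 b k hk) h2
    rw [L.wf_s_symm i _ b, sub_neg_eq_add] at h3
    have h4 := abs_add_le (L.s i (b * u * v (k + 1)) 1 σ +
      L.s i (b * u * v (k + 1)) b (b * (u * W ^ K1 * u⁻¹)))
      (-(L.s i (b * u * v (k + 1)) b (b * (u * W ^ K1 * u⁻¹)) - f k))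
    rw [abs_neg] at h4
    have h5 : L.s i (b * u * v (k + 1)) 1 σ +
      L.s i (b * u * v (k + 1)) b (b * (u * W ^ K1 * u⁻¹)) +
      -(L.s i (b * u * v (k + 1)) b (b * (u * W ^ K1 * u⁻¹)) - f k) =
      L.s i (b * u * v (k + 1)) 1 σ - -1 * f k := by ring
    rw [h5] at h4
    push_cast at h1 h3 ⊢
    linarith

end BW

end Pool.Agent.H319.FS
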