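import Pool.Agent.H319.FS.Step
import Pool.Graph.R_seed8.TH54.BU.Base

/-!
# The sequence of groups
-/

set_option autoImplicit false

namespace Pool.Agent.H319.FS

open Pool.Agent.TH54.BU Pool.Agent.Y45.MON

/-! ### the free group -/

/-- positive words of length at most `R` -/
def pos (I : Type) (R : ℕ) : Set (FreeGroup I) :=
  {σ | ∃ l : List I, l.length ≤ R ∧ σ = (l.map FreeGroup.of).prod}

/-- the exponent sum -/
def expo (I : Type) : FreeGroup I →* Multiplicative ℤ :=
  FreeGroup.lift fun _ => Multiplicative.ofAdd 1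

theorem expo_prod {I : Type} (l : List I) :
    Multiplicative.toAdd (expo I (l.map FreeGroup.of).prod) = l.length := by
  induction l with
  | nil => simp
  | cons i l ih =>
    rw [List.map_cons, List.prod_cons, map_mul, toAdd_mul, ih]
    simp only [expo, FreeGroup.lift_apply_of, toAdd_ofAdd, List.length_cons]
    push_cast
    ring

theorem expo_le {I : Type} [DecidableEq I] (g : FreeGroup I) :
    Multiplicative.toAdd (expo I g) ≤ g.norm := by
  have key : ∀ L : List (I × Bool), Multiplicative.toAdd (expo I (FreeGroup.mk L)) ≤ L.length := by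
    intro L
    induction L with
    | nil =>
      have : (FreeGroup.mk [] : FreeGroup I) = 1 := rfl
      rw [this, map_one]
      simp
    | cons p L ih =>
      obtain ⟨i, b⟩ := p
      have h1 : (FreeGroup.mk ((i, b) :: L) : FreeGroup I) = FreeGroup.mk [(i, b)] *
          FreeGroup.mk L := by
        rw [FreeGroup.mul_mk]
        rfl
      have h2 : Multiplicative.toAdd (expo I (FreeGroup.mk [(i, b)])) ≤ 1 := by
        cases b
        · have : (FreeGroup.mk [(i, false)] : FreeGroup I) = (FreeGroup.of i)⁻¹ := rfl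
          rw [this, map_inv, toAdd_inv]
          simp [expo]
        · have : (FreeGroup.mk [(i, true)] : FreeGroup I) = FreeGroup.of i := rfl
          rw [this]
          simp [expo]
      rw [h1, map_mul, toAdd_mul, List.length_cons]
      push_cast
      linarith
  have h := key g.toWord
  rw [FreeGroup.mk_toWord] at h
  exact h

theorem norm_prod_le {I : Type} [DecidableEq I] (l : List I) :
    (l.map FreeGroup.of).prod.norm ≤ l.length := by
  induction l with
  | nil => simp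
  | cons i l ih =>
    rw [List.map_cons, List.prod_cons, List.length_cons]
    have h1 := FreeGroup.norm_mul_le (FreeGroup.of i) (l.map FreeGroup.of).prod
    rw [FreeGroup.norm_of] at h1
    omega

/-- positive words of the free group do not run against each other -/
theorem pi_pos (I : Type) [DecidableEq I] (D Λ R : ℕ) : PI (freeGH I D) Λ (pos I R) := by
  rintro _ ⟨l, hl, rfl⟩ _ ⟨l', hl', rfl⟩ h
  change (l.map FreeGroup.of).prod.norm + (l'.map FreeGroup.of).prod.norm ≤
    (h⁻¹ * (l.map FreeGroup.of).prod).norm + (1⁻¹ * (h * (l'.map FreeGroup.of).prod)).norm + 2 * Λ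
  rw [inv_one, one_mul]
  have h1 := norm_prod_le l
  have h2 := norm_prod_le l'
  have h3 := expo_le (h⁻¹ * (l.map FreeGroup.of).prod)
  have h4 := expo_le (h * (l'.map FreeGroup.of).prod)
  rw [map_mul, toAdd_mul, expo_prod] at h3 h4
  rw [map_inv, toAdd_inv] at h3
  omega

theorem pos_len (I : Type) [DecidableEq I] (D R : ℕ) : ∀ σ ∈ pos I R, (freeGH I D).len σ ≤ R := by
  rintro _ ⟨l, hl, rfl⟩
  exact (norm_prod_le l).trans hl

/-- different positive words are different -/
theorem pos_inj {I : Type} [DecidableEq I] (l l' : List I)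
    (h : (l.map FreeGroup.of).prod = (l'.map FreeGroup.of).prod) : l = l' := by
  have key : ∀ l : List I, FreeGroup.toWord (l.map FreeGroup.of).prod =
      l.map fun i => (i, true) := by
    intro l
    have h1 : (l.map FreeGroup.of).prod = FreeGroup.mk (l.map fun i => (i, true)) := by
      induction l with
      | nil => rfl
      | cons i l ih =>
        rw [List.map_cons, List.prod_cons, ih, List.map_cons]
        show FreeGroup.mk [(i, true)] * _ = _
        rw [FreeGroup.mul_mk]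
        rfl
    rw [h1, FreeGroup.toWord_mk]
    apply FreeGroup.IsReduced.reduce_eq
    clear h1
    induction l with
    | nil => simp
    | cons i l ih =>
      cases l with
      | nil => simp
      | cons i' l =>
        simp only [List.map_cons] at ih ⊢
        rw [FreeGroup.isReduced_cons_cons]
        exact ⟨fun _ => rfl, ih⟩
  have h2 := key l
  rw [h, key l'] at h2
  exact (List.map_injective_iff.2 (fun a b hab => (Prod.ext_iff.1 hab).1) h2).symm

theorem stab_free (I : Type) [DecidableEq I] : (freeGH I 4).Stab 1 := by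
  intro g hg m
  rw [one_mul]
  refine freeBase_norm_pow ?_ m
  rintro rfl
  exact hg IsOfFinOrder.one

theorem acy_free (I : Type) [DecidableEq I] (K B : ℕ) (hB : 8 * K + 20 ≤ B) :
    (freeGH I 4).Acy K B := by
  intro q hq g hg
  refine ⟨?_, ?_⟩
  · intro hf
    obtain ⟨n, hn, h⟩ := isOfFinOrder_iff_pow_eq_one.1 hf
    exact (pow_eq_one_iff_left hn.ne').1 h
  · intro h hh
    have hD : (freeGH I 0).D = 0 := rfl
    have hq' : 8 * K + 20 ≤ (freeGH I 0).d 1 q := by
      rw [GH.d_one]; exact hB.trans hq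
    obtain ⟨t, ht1, ht2⟩ := (freeGH I 0).between 1 q (4 * K + 10) (by omega)
    have hd1 : ∀ w ∈ (freeGH I 4).SD K q, (freeGH I 0).d 1 (w * 1) ≤ K := by
      intro w hw
      rw [mul_one, GH.d_one]; exact hw.1
    have hd2 : ∀ w ∈ (freeGH I 4).SD K q, (freeGH I 0).d q (w * q) ≤ K := by
      intro w hw
      have := hw.2
      rw [mul_assoc] at this
      exact this
    have key := (freeGH I 0).cm (hd1 g hg) (hd2 g hg) (hd1 h hh) (hd2 h hh) (t := t)
      (by omega) (by omega) (by omega)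
    rw [hD, mul_zero, Nat.le_zero] at key
    have h1 := (freeGH I 0).eq_of_d key
    have h2 : g * h * g⁻¹ * h⁻¹ = 1 := by
      have : g * h * g⁻¹ * h⁻¹ * t = 1 * t := by rw [one_mul]; exact h1.symm
      exact mul_right_cancel this
    have h3 : g * h * (h * g)⁻¹ = 1 := by rw [mul_inv_rev, ← mul_assoc]; exact h2
    exact mul_inv_eq_one.1 h3

/-! ### the exponents -/

open Classical in
/-- the exponent as a function of the predicate -/
noncomputable def exQ {r : ℕ} (N : ℕ) (ε : Fin r → ℕ) (p : Fin r → Prop) : ℕ :=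
  if h : ∃ j, p j then ε h.choose else N

/-- the exponents given by the marks -/
noncomputable def exF {r : ℕ} {G : Type} [Group G] (N : ℕ) (ε : Fin r → ℕ)
    (Mk : G → Fin r → Prop) (g : G) : ℕ :=
  exQ N ε fun j => Mk g j ∨ Mk g⁻¹ j

section exF

variable {r : ℕ} {G : Type} [Group G] {N : ℕ} {ε : Fin r → ℕ} {Mk : G → Fin r → Prop}

theorem exF_dvd (hN : N ≠ 1) (hε : ∀ j, ε j ∣ N ∧ ε j ≠ 1) (g : G) :
    exF N ε Mk g ∣ N ∧ exF N ε Mk g ≠ 1 := by
  unfold exF exQ
  split_ifs with h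
  · exact hε _
  · exact ⟨dvd_rfl, hN⟩

theorem exF_conj (hMk : ∀ (u g : G) (j : Fin r), Mk g j → Mk (u * g * u⁻¹) j) (g u : G) :
    exF N ε Mk (u * g * u⁻¹) = exF N ε Mk g := by
  have h0 : ∀ (g u : G) (j : Fin r), Mk (u * g * u⁻¹) j ↔ Mk g j := by
    intro g u j
    constructor
    · intro h
      have h1 := hMk u⁻¹ _ _ h
      have h2 : u⁻¹ * (u * g * u⁻¹) * u⁻¹⁻¹ = g := by group
      rwa [h2] at h1
    · exact hMk u g j
  have h3 : (u * g * u⁻¹)⁻¹ = u * g⁻¹ * u⁻¹ := by group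
  have h4 : (fun j => Mk (u * g * u⁻¹) j ∨ Mk (u * g * u⁻¹)⁻¹ j) =
      (fun j => Mk g j ∨ Mk g⁻¹ j) := by
    funext j
    rw [h3, h0, h0]
  unfold exF
  rw [h4]

theorem exF_inv (g : G) : exF N ε Mk g⁻¹ = exF N ε Mk g := by
  have h4 : (fun j => Mk g⁻¹ j ∨ Mk (g⁻¹)⁻¹ j) = (fun j => Mk g j ∨ Mk g⁻¹ j) := by
    funext j
    rw [inv_inv]
    exact propext Or.comm
  unfold exF
  rw [h4]

theorem exF_eq (mku : ∀ (g : G) (j j' : Fin r), Mk g j → Mk g j' → j = j')
    (mki : ∀ (g : G) (j j' : Fin r), Mk g j → ¬ Mk g⁻¹ j') {g : G} {j : Fin r}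
    (h : Mk g j) : exF N ε Mk g = ε j := by
  have hex : ∃ j, Mk g j ∨ Mk g⁻¹ j := ⟨j, Or.inl h⟩
  unfold exF exQ
  rw [dif_pos hex]
  rcases hex.choose_spec with h1 | h1
  · rw [mku _ _ _ h1 h]
  · exact absurd h1 (mki _ _ _ h)

end exF

/-! ### stages -/

/-- a stage of the construction -/
structure StF {r : ℕ} (K B T N Λ c1 K1 R : ℕ) : Type 1 where
  G : Type
  grp : Group G
  H : GH G
  P : Set G
  Mk : G → Fin r → Prop
  hD : H.D = 4
  stab : H.Stab T
  acy : H.Acy K B
  tor : Tor G N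
  ts : ∀ g : G, IsOfFinOrder g → ∃ u : G, Sp H (u * g * u⁻¹)
  hP : ∀ σ ∈ P, H.len σ ≤ R
  pi : PI H Λ P
  mkc : ∀ (u g : G) (j : Fin r), Mk g j → Mk (u * g * u⁻¹) j
  mku : ∀ (g : G) (j j' : Fin r), Mk g j → Mk g j' → j = j'
  mki : ∀ (g : G) (j j' : Fin r), Mk g j → ¬ Mk g⁻¹ j'
  mkn : ∀ (g : G) (j : Fin r), Mk g j → ∃ y u : G, H.len y ≤ 1 ∧ NT H c1 K1 P y ∧
    g = u * y * u⁻¹

instance {r : ℕ} {K B T N Λ c1 K1 R : ℕ} (s : StF (r := r) K B T N Λ c1 K1 R) : Group s.G :=
  s.grp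

/-- the relation between successive stages -/
structure RelF {r : ℕ} {K B T N Λ c1 K1 R : ℕ} (w : WP r) (R0 : ℕ) (ε : Fin r → ℕ)
    (s s' : StF (r := r) K B T N Λ c1 K1 R) (f : s.G →* s'.G) (Xs : Set s.G) : Prop where
  st : StepX w R0 (exF N ε s.Mk) Xs s.H s'.H f
  inj : ∀ σ ∈ s.P, ∀ τ ∈ s.P, f σ = f τ → σ = τ
  im : s'.P = f '' s.P
  x1 : ∀ a1 b1 : s.G, IsOfFinOrder a1 → Sp s.H a1 → s.H.len b1 ≤ R0 →
    ¬ IsOfFinOrder (P0 w.M1 a1 b1) → IsOfFinOrder (f (P0 w.M1 a1 b1)) →
    NT s'.H c1 K1 s'.P (f (X1 w.M1 w.m2 a1 b1))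
  mka : ∀ (a b X : s.G) (j : Fin r), Gd s.H a b X → NT s.H c1 K1 s.P X →
    s'.Mk (f (Wj w j a b X)) j

/-- one step -/
theorem next_F {r : ℕ} {w : WP r} {R0 K B T N Λ c1 K1 R : ℕ} {ε : Fin r → ℕ} (hR : 1 ≤ R)
    (s : StF (r := r) K B T N Λ c1 K1 R)
    {G' : Type} [Group G'] (H' : GH G') (f : s.G →* G') (Xs : Set s.G)
    (hD : H'.D = 4) (hst : H'.Stab T) (hac : H'.Acy K B) (htor : Tor G' N)
    (hX : StepX w R0 (exF N ε s.Mk) Xs s.H H' f) (hP : StepP w R0 Λ c1 K1 s.H H' f s.P) :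
    ∃ (s' : StF (r := r) K B T N Λ c1 K1 R) (f' : s.G →* s'.G) (Xs' : Set s.G),
      RelF w R0 ε s s' f' Xs' := by
  let Mk' : G' → Fin r → Prop := fun q j =>
    ∃ (a b X : s.G) (u : G'), Gd s.H a b X ∧ NT s.H c1 K1 s.P X ∧ q = u * f (Wj w j a b X) * u⁻¹
  let s' : StF (r := r) K B T N Λ c1 K1 R :=
    { G := G'
      grp := inferInstance
      H := H'
      P := f '' s.P
      Mk := Mk'
      hD := hD
      stab := hst
      acy := hac
      tor := htor
      ts := hX.ts
      hP := by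
        rintro _ ⟨σ, hσ, rfl⟩
        have h1 := hX.len σ
        have h2 := s.hP σ hσ
        omega
      pi := hP.pi
      mkc := by
        rintro v q j ⟨a, b, X, u, h1, h2, h3⟩
        refine ⟨a, b, X, v * u, h1, h2, ?_⟩
        rw [h3]
        group
      mku := by
        rintro q j j' ⟨a, b, X, u, h1, h2, h3⟩ ⟨a', b', X', u', h1', h2', h3'⟩
        have h5 : (u'⁻¹ * u) * f (Wj w j a b X) * (u'⁻¹ * u)⁻¹ = f (Wj w j' a' b' X') := by
          have h6 : (u'⁻¹ * u) * f (Wj w j a b X) * (u'⁻¹ * u)⁻¹ = u'⁻¹ * q * u' := by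
            rw [h3]
            group
          rw [h6, h3']
          group
        exact (((hX.wr a b X h1 j).2.2.2.2 a' b' X' h1' j' _).1 h5).1
      mki := by
        rintro q j j' ⟨a, b, X, u, h1, h2, h3⟩ ⟨a', b', X', u', h1', h2', h3'⟩
        refine ((hX.wr a b X h1 j).2.2.2.2 a' b' X' h1' j' (u'⁻¹ * u)).2 ?_
        have h6 : (u'⁻¹ * u) * f (Wj w j a b X) * (u'⁻¹ * u)⁻¹ = (u'⁻¹ * q⁻¹ * u')⁻¹ := by
          rw [h3]
          group
        rw [h6, h3']
        group
      mkn := by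
        rintro q j ⟨a, b, X, u, h1, h2, h3⟩
        exact ⟨_, u, (hX.wr a b X h1 j).2.1, hP.wj a b X h1 h2 j, h3⟩ }
  exact ⟨s', f, Xs, hX, hP.inj, rfl, hP.x1, fun a b X j hG hN => ⟨a, b, X, 1, hG, hN, by group⟩⟩

/-- the sequence -/
structure SqF {r : ℕ} (w : WP r) (R0 N R : ℕ) (ε : Fin r → ℕ) (G : ℕ → Type)
    [∀ n, Group (G n)] (H : ∀ n, GH (G n)) (f : ∀ n, G n →* G (n + 1)) (P : ∀ n, Set (G n))
    (ex : ∀ n, G n → ℕ) (Xs : ∀ n, Set (G n)) (Gn : ∀ n, G n → Prop) : Prop where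
  free : ∀ g : G 0, IsOfFinOrder g → g = 1
  gen : ∃ x y : G 0, Subgroup.closure {x, y} = ⊤ ∧
    (∀ l : List Bool, l.length ≤ R → (l.map fun i => if i then x else y).prod ∈ P 0) ∧
    ∀ l l' : List Bool, (l.map fun i => if i then x else y).prod =
      (l'.map fun i => if i then x else y).prod → l = l'
  tor : ∀ n, Tor (G n) N
  st : ∀ n, StepX w R0 (ex n) (Xs n) (H n) (H (n + 1)) (f n)
  ts : ∀ (n : ℕ) (g : G n), IsOfFinOrder g → ∃ u : G n, Sp (H n) (u * g * u⁻¹)
  inj : ∀ n, ∀ σ ∈ P n, ∀ τ ∈ P n, f n σ = f n τ → σ = τ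
  im : ∀ n, ∀ σ ∈ P n, f n σ ∈ P (n + 1)
  x1 : ∀ n, ∀ a1 b1 : G n, IsOfFinOrder a1 → Sp (H n) a1 → (H n).len b1 ≤ R0 →
    ¬ IsOfFinOrder (P0 w.M1 a1 b1) → IsOfFinOrder (f n (P0 w.M1 a1 b1)) →
    Gn (n + 1) (f n (X1 w.M1 w.m2 a1 b1))
  exc : ∀ n (g u : G n), ex n (u * g * u⁻¹) = ex n g
  exi : ∀ n (g : G n), ex n g⁻¹ = ex n g
  mka : ∀ (n : ℕ) (a b X : G n) (j : Fin r), Gd (H n) a b X → Gn n X →
    ex (n + 1) (f n (Wj w j a b X)) = ε j

/-- existence of the sequence -/
theorem seqF : ∀ (r : ℕ) (δ : Fin r → ℕ), (∀ j, δ j = 1 ∨ δ j = 2) →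
  ∃ (w : WP r) (R0 n0 : ℕ) (Big : ℕ → ℕ), w.δ = δ ∧ 1 ≤ R0 ∧ 3 ≤ n0 ∧
    ∀ N R : ℕ, N ≠ 1 → 1 ≤ R → (∀ q : ℕ, q.Prime → q ∣ N → n0 ≤ q) → Big R ≤ N →
      ∀ (ε : Fin r → ℕ), (∀ j, ε j ∣ N ∧ ε j ≠ 1) →
      ∃ (G : ℕ → Type) (_ : ∀ n, Group (G n)) (H : ∀ n, GH (G n)) (f : ∀ n, G n →* G (n + 1))
        (P : ∀ n, Set (G n)) (ex : ∀ n, G n → ℕ) (Xs : ∀ n, Set (G n)) (Gn : ∀ n, G n → Prop),
        SqF w R0 N R ε G H f P ex Xs Gn := by
  classical
  intro r δ hδ
  obtain ⟨w, R0, K, B, T, n0, Λ, c1, K1, Big, hw, hR0, hK, hB, hT, -, hn0, hstep⟩ :=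
    aStepF r δ hδ
  refine ⟨w, R0, n0, Big, hw, hR0, hn0, ?_⟩
  intro N R hN hR hq hBig ε hε
  have htf : ∀ g : FreeGroup Bool, IsOfFinOrder g → g = 1 := by
    intro g hg
    obtain ⟨m, hm, h⟩ := isOfFinOrder_iff_pow_eq_one.1 hg
    have h1 : g ^ m = 1 ^ m := by rw [h, one_pow]
    exact pow_left_injective hm.ne' h1
  let s0 : StF (r := r) K B T N Λ c1 K1 R :=
    { G := FreeGroup Bool
      grp := inferInstance
      H := freeGH Bool 4
      P := pos Bool R
      Mk := fun _ _ => False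
      hD := rfl
      stab := by
        intro g hg m
        calc m ≤ 1 * (freeGH Bool 4).len (g ^ m) := stab_free Bool g hg m
          _ ≤ T * (freeGH Bool 4).len (g ^ m) := Nat.mul_le_mul_right _ hT
      acy := acy_free Bool K B hB
      tor := fun g hg => by rw [htf g hg, one_pow]
      ts := fun g hg => ⟨1, fun k => by
        rw [htf g hg]
        simp [(freeGH Bool 4).len_one]⟩
      hP := pos_len Bool 4 R
      pi := pi_pos Bool 4 Λ R
      mkc := fun _ _ _ h => h
      mku := fun _ _ _ h => h.elim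
      mki := fun _ _ _ h => h.elim
      mkn := fun _ _ h => h.elim }
  have hnext : ∀ s : StF (r := r) K B T N Λ c1 K1 R, ∃ (s' : StF (r := r) K B T N Λ c1 K1 R)
      (f' : s.G →* s'.G) (Xs' : Set s.G), RelF w R0 ε s s' f' Xs' := by
    intro s
    obtain ⟨G', iG', H', f, Xs, h1, h2, h3, h4, h5, h6⟩ := hstep N hq s.G s.H s.hD s.stab s.acy
      s.tor s.ts (exF N ε s.Mk) (exF_dvd hN hε)
      (fun g u => exF_conj s.mkc g u) exF_inv s.P R s.hP s.pi (fun g => by
        by_cases hg : ∃ j, s.Mk g j ∨ s.Mk g⁻¹ j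
        · right
          obtain ⟨j, hj | hj⟩ := hg
          · obtain ⟨y, u, h1, h2, h3⟩ := s.mkn g j hj
            exact ⟨y, u, h1, h2, Or.inl h3⟩
          · obtain ⟨y, u, h1, h2, h3⟩ := s.mkn g⁻¹ j hj
            exact ⟨y, u, h1, h2, Or.inr h3⟩
        · left
          unfold exF exQ
          rw [dif_neg hg]
          exact hBig)
    exact next_F hR s H' f Xs h1 h2 h3 h4 h5 h6
  choose nx fx Xx hRel using hnext
  let s : ℕ → StF (r := r) K B T N Λ c1 K1 R := fun n => Nat.rec s0 (fun _ s => nx s) n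
  refine ⟨fun n => (s n).G, fun n => (s n).grp, fun n => (s n).H, fun n => fx (s n),
    fun n => (s n).P, fun n => @exF r (s n).G (s n).grp N ε (s n).Mk, fun n => Xx (s n),
    fun n => @NT (s n).G (s n).grp (s n).H c1 K1 (s n).P, ?_⟩
  have hgen : ∃ x y : FreeGroup Bool, Subgroup.closure {x, y} = ⊤ ∧
      (∀ l : List Bool, l.length ≤ R → (l.map fun i => if i then x else y).prod ∈ pos Bool R) ∧
      ∀ l l' : List Bool, (l.map fun i => if i then x else y).prod =
        (l'.map fun i => if i then x else y).prod → l = l' := by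
    refine ⟨FreeGroup.of true, FreeGroup.of false, ?_, ?_, ?_⟩
    · have h1 : ({FreeGroup.of true, FreeGroup.of false} : Set (FreeGroup Bool)) =
          Set.range FreeGroup.of := by
        ext g
        simp only [Set.mem_insert_iff, Set.mem_singleton_iff, Set.mem_range]
        constructor
        · rintro (rfl | rfl)
          · exact ⟨true, rfl⟩
          · exact ⟨false, rfl⟩
        · rintro ⟨i, rfl⟩
          cases i
          · exact Or.inr rfl
          · exact Or.inl rfl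
      rw [h1]
      exact FreeGroup.closure_range_of _
    · intro l hl
      refine ⟨l, hl, ?_⟩
      congr 2
      funext i
      cases i <;> rfl
    · intro l l' h
      apply pos_inj
      have e : (fun i : Bool => if i then FreeGroup.of true else FreeGroup.of false) =
          FreeGroup.of := by
        funext i
        cases i <;> rfl
      rwa [e] at h
  exact @SqF.mk r w R0 N R ε (fun n => (s n).G) (fun n => (s n).grp) (fun n => (s n).H)
    (fun n => fx (s n)) (fun n => (s n).P) (fun n => @exF r (s n).G (s n).grp N ε (s n).Mk)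
    (fun n => Xx (s n)) (fun n => @NT (s n).G (s n).grp (s n).H c1 K1 (s n).P) htf hgen (fun n => (s n).tor)
    (fun n => (hRel (s n)).st) (fun n => (s n).ts) (fun n => (hRel (s n)).inj)
    (fun n σ hσ => by
      have := (hRel (s n)).im
      show fx (s n) σ ∈ (nx (s n)).P
      rw [this]
      exact ⟨σ, hσ, rfl⟩)
    (fun n => (hRel (s n)).x1) (fun n g u => @exF_conj r (s n).G (s n).grp N ε (s n).Mk (s n).mkc g u)
    (fun n g => @exF_inv r (s n).G (s n).grp N ε (s n).Mk g)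
    (fun n a b X j hG hN => exF_eq (s (n + 1)).mku (s (n + 1)).mki
      ((hRel (s n)).mka a b X j hG hN))

end Pool.Agent.H319.FS
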