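import Pool.Agent.H319.FS.Close
import Pool.Agent.H319.FS.Line

/-!
# Lifting almost geodesic paths from the quotient
-/

set_option autoImplicit false

namespace Pool.Agent.H319.FS

open Pool.Agent.TH54.BU Pool.Agent.Y45.MON

/-- the data of one step, with a set `P` of paths with small displacements -/
structure Dat {G : Type} [Group G] {H : GH G} {c θ T : ℕ} (L : LS H c θ T) (n : L.ι → ℕ)
    (E : GH G) (Θ : ℕ) (M : Subgroup G) [M.Normal] (Q : GH (G ⧸ M)) (A : L.ι → ℕ) (P : Set G) :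
    Prop where
  fil : Fv L n M
  cone : L.Cone E Θ
  hn : ∀ i, 4 * A i + 12 * L.thr ≤ n i
  hn2 : ∀ i, 24 * L.thr + T * (2 * c + 1) ≤ n i
  hA : ∀ i, T * Θ + 1 ≤ A i
  le : ∀ g : G, Q.len (g : G ⧸ M) ≤ E.len g
  lift : ∀ q : G ⧸ M, ∃ g : G, (g : G ⧸ M) = q ∧ E.len g = Q.len q
  hP : ∀ σ ∈ P, ∀ (i : L.ι) (u : G), |L.s i u 1 σ| < A i

variable {G : Type} [Group G] {H : GH G} {c θ T : ℕ} {L : LS H c θ T} {n : L.ι → ℕ} {E : GH G}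
  {Θ : ℕ} {M : Subgroup G} [M.Normal] {Q : GH (G ⧸ M)} {A : L.ι → ℕ} {P : Set G}

theorem s_inv (i : L.ι) (w g : G) : L.s i w 1 g⁻¹ = -L.s i (g * w) 1 g := by
  have h := L.ky_s_mul i g⁻¹ w g 1
  rw [inv_mul_cancel, mul_one, inv_inv, L.wf_s_symm i _ 1 g] at h
  exact h

namespace Dat

theorem s1 (D : Dat L n E Θ M Q A P) (i : L.ι) (u : G) : |L.s i u 1 1| < A i := by
  rw [L.wf_s_self, abs_zero]
  have := D.hA i
  omega

theorem len1 {E : GH G} {g : G} (h : E.len g ≤ E.len 1) : g = 1 := by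
  rw [E.len_one] at h
  exact E.eq_one _ (by omega)

/-- the paths stay different -/
theorem inj (D : Dat L n E Θ M Q A P) {σ τ : G} (hσ : σ ∈ P) (hτ : τ ∈ P)
    (h : (σ : G ⧸ M) = τ) : σ = τ := by
  have h1 : σ * 1 * τ⁻¹ * 1 ∈ M := by
    rw [mul_one, mul_one, ← QuotientGroup.eq_one_iff, QuotientGroup.mk_mul,
      QuotientGroup.mk_inv, h, mul_inv_cancel]
  obtain ⟨h2, h4, e2, e4, e⟩ := close4 L D.fil D.hn D.hn2 D.cone D.hA σ 1 τ⁻¹ 1 (D.hP σ hσ)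
    (fun i u => by rw [s_inv, abs_neg]; exact D.hP τ hτ i _) h1
  rw [len1 e2, len1 e4, mul_one, mul_one] at e
  exact mul_inv_eq_one.1 e

/-- short displacements: the cone length is not decreased -/
theorem lenle (D : Dat L n E Θ M Q A P) {g : G} (hg : ∀ (i : L.ι) (u : G), |L.s i u 1 g| < A i) :
    E.len g ≤ Q.len (g : G ⧸ M) := by
  obtain ⟨g2, hg2, hl⟩ := D.lift (g : G ⧸ M)⁻¹
  have h1 : g * g2 * 1 * 1 ∈ M := by
    rw [mul_one, mul_one, ← QuotientGroup.eq_one_iff, QuotientGroup.mk_mul, hg2, mul_inv_cancel]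
  obtain ⟨h2, h4, e2, e4, e⟩ := close4 L D.fil D.hn D.hn2 D.cone D.hA g g2 1 1 hg D.s1 h1
  rw [len1 e4, mul_one, mul_one] at e
  have h5 : h2 = g⁻¹ := (inv_eq_of_mul_eq_one_right e).symm
  rw [h5, E.len_inv, hl, Q.len_inv] at e2
  exact e2

/-- two paths which do not run against each other do not do so in the quotient -/
theorem pi {Λ : ℕ} (D : Dat L n E Θ M Q A P) (hE : PI E Λ P) :
    PI Q Λ ((fun g : G => (g : G ⧸ M)) '' P) := by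
  rintro _ ⟨σ, hσ, rfl⟩ _ ⟨τ, hτ, rfl⟩ h
  show Q.len (σ : G ⧸ M) + Q.len (τ : G ⧸ M) ≤ Q.d h (σ : G ⧸ M) + Q.d 1 (h * (τ : G ⧸ M)) + 2 * Λ
  obtain ⟨g2, hg2, hl2⟩ := D.lift ((σ : G ⧸ M)⁻¹ * h)
  obtain ⟨g4, hg4, hl4⟩ := D.lift ((τ : G ⧸ M)⁻¹ * h⁻¹)
  have h1 : σ * g2 * τ * g4 ∈ M := by
    rw [← QuotientGroup.eq_one_iff, QuotientGroup.mk_mul, QuotientGroup.mk_mul,
      QuotientGroup.mk_mul, hg2, hg4]
    group
  obtain ⟨h2, h4, e2, e4, e⟩ := close4 L D.fil D.hn D.hn2 D.cone D.hA σ g2 τ g4 (D.hP σ hσ)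
    (D.hP τ hτ) h1
  have h5 := hE σ hσ τ hτ (σ * h2)
  have e5 : E.d (σ * h2) σ = E.len h2 := by
    rw [E.d_comm]
    unfold GH.d
    rw [inv_mul_cancel_left]
  have e6 : σ * h2 * τ = h4⁻¹ := eq_inv_of_mul_eq_one_left e
  rw [e5, e6, E.d_one, E.len_inv] at h5
  have e7 : Q.d h (σ : G ⧸ M) = Q.len ((σ : G ⧸ M)⁻¹ * h) := by
    rw [Q.d_comm]
    rfl
  have e8 : Q.d 1 (h * (τ : G ⧸ M)) = Q.len ((τ : G ⧸ M)⁻¹ * h⁻¹) := by
    rw [Q.d_one, ← Q.len_inv, mul_inv_rev]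
  rw [e7, e8, ← hl2, ← hl4]
  have h6 := D.le σ
  have h7 := D.le τ
  omega

/-- an almost geodesic path in the quotient with a given middle part can be lifted -/
theorem viol {m : ℕ} (D : Dat L n E Θ M Q A P) {σ ζ : G} (hσ : σ ∈ P)
    (hζ : ∀ (i : L.ι) (u : G), |L.s i u 1 ζ| < A i) {a : G ⧸ M}
    (h : Q.d 1 a + Q.d a (a * ζ) + Q.d (a * ζ) σ ≤ Q.len (σ : G ⧸ M) + m) :
    ∃ a' : G, E.d 1 a' + E.d a' (a' * ζ) + E.d (a' * ζ) σ ≤ E.len σ + m := by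
  obtain ⟨g2, hg2, hl2⟩ := D.lift ((σ : G ⧸ M)⁻¹ * (a * ζ))
  obtain ⟨g4, hg4, hl4⟩ := D.lift a⁻¹
  have h1 : σ * g2 * ζ⁻¹ * g4 ∈ M := by
    rw [← QuotientGroup.eq_one_iff, QuotientGroup.mk_mul, QuotientGroup.mk_mul,
      QuotientGroup.mk_mul, hg2, hg4, QuotientGroup.mk_inv]
    group
  obtain ⟨h2, h4, e2, e4, e⟩ := close4 L D.fil D.hn D.hn2 D.cone D.hA σ g2 ζ⁻¹ g4 (D.hP σ hσ)
    (fun i u => by rw [s_inv, abs_neg]; exact hζ i _) h1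
  refine ⟨h4⁻¹, ?_⟩
  have e5 : h4⁻¹ * ζ = σ * h2 := by
    have : σ * h2 * ζ⁻¹ = h4⁻¹ := eq_inv_of_mul_eq_one_left e
    rw [← this]
    group
  have e6 : E.d h4⁻¹ (h4⁻¹ * ζ) = E.len ζ := by
    unfold GH.d
    rw [inv_mul_cancel_left]
  have e7 : E.d (h4⁻¹ * ζ) σ = E.len h2 := by
    rw [e5, E.d_comm]
    unfold GH.d
    rw [inv_mul_cancel_left]
  rw [e6, e7, E.d_one, E.len_inv]
  have e8 : Q.d a (a * ζ) = Q.len (ζ : G ⧸ M) := by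
    unfold GH.d
    rw [inv_mul_cancel_left]
  have e9 : Q.d (a * ζ) σ = Q.len ((σ : G ⧸ M)⁻¹ * (a * ζ)) := by
    rw [Q.d_comm]
    rfl
  have e10 : Q.d 1 a = Q.len a⁻¹ := by rw [Q.d_one, Q.len_inv]
  rw [e8, e9, e10, ← hl2, ← hl4] at h
  have h5 := D.lenle hζ
  have h6 := D.le σ
  omega

end Dat

end Pool.Agent.H319.FS
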