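import Pool.Agent.H319.FS.NTQ
import Pool.Graph.R_seed8.Y811.MON.Frame
import Pool.Graph.R_seed8.Y914.MON.Xa

/-!
# The words `Wj` and `X1` are not followed by paths of `P` in the quotient
-/

set_option autoImplicit false

namespace Pool.Agent.H319.FS

open Pool.Agent.TH54.BU Pool.Agent.Y45.MON

variable {G : Type} [Group G] {H : GH G} {c θ T : ℕ} {L : LS H c θ T} {n : L.ι → ℕ} {E : GH G}
  {Θ : ℕ} {M : Subgroup G} [M.Normal] {Q : GH (G ⧸ M)} {A : L.ι → ℕ} {P : Set G}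

/-- the constants of one step -/
structure Cts (H : GH G) (L : LS H c θ T) (Θ : ℕ) (A : L.ι → ℕ) (κ c1 K1 t0 q Te ρ F B0 : ℕ) :
    Prop where
  κ1 : 1 ≤ κ
  K1q : K1 = 2 * q + 2
  qq : Te * (2 * (ρ + 1) + t0 + κ * (c1 + 1) + 1 + 2 * t0) ≤ q
  hK : T * c < K1
  hB : cst L Θ ρ + 2 * (T * (t0 + c)) + 2 * (T * Θ) + K1 < B0
  hA : ∀ j, F + cst L 0 ρ + 2 * (T * (t0 + c)) < A j
  c1e : c1 = 2 * c + 4 * tb H.D c T 1

theorem nt_Wj (D : Dat L n E Θ M Q A P) {κ c1 K1 t0 q Te ρ F B0 : ℕ}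
    (K : Cts H L Θ A κ c1 K1 t0 q Te ρ F B0)
    {F' : GH (G ⧸ M)} (hF1 : ∀ q, Q.len q ≤ κ * F'.len q)
    (hF2 : ∀ q, κ * F'.len q ≤ Q.len q + (κ - 1)) (hS : Q.Stab Te)
    (hshort : ∀ z, ¬ IsOfFinOrder z → H.len z ≤ 1 → L.Short z) {r : ℕ} (w : WP r)
    {μ : Fin r → ℕ → ℕ} (hδ : ∀ j, w.δ j = 1 ∨ w.δ j = 2)
    (hμ : ∀ j l, (μ j l).Prime) (hper : ∀ j l, μ j (l + 4) = μ j l)
    (hw : ∀ j (l : Fin 4), w.e j l = B0 * μ j l) (hρ : 2 * tb H.D c T 1 + 4 ≤ ρ)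
    (ht0 : tb H.D c T 1 ≤ t0) (hFl : ∀ j l, (T + 1) * (B0 * μ j l) ≤ F) {a b X : G}
    (hG : Gd H a b X) (hX : NT H c1 K1 P X) (j : Fin r)
    (hinf : ¬ IsOfFinOrder ((Wj w j a b X : G) : G ⧸ M)) :
    NT F' c1 K1 ((fun g : G => (g : G ⧸ M)) '' P) ((Wj w j a b X : G) : G ⧸ M) := by
  obtain ⟨i, u, e, hu, hXe, hfr⟩ := Y811.MON.gd_frame Y811.MON.frame hshort w hδ hw hρ hG
  obtain ⟨hfrj, hW⟩ := hfr j
  have hB := K.hB
  have hPL := Y614.MON.frPL (Θ := Θ) hμ hper (B0 := B0) (by omega) hFl hfrj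
  set α := u⁻¹ * a * u with hα
  set β := u⁻¹ * b * u with hβ
  have hfk : ∀ k, |e * ((B0 : ℤ) * μ j k)| = |e| * ((B0 : ℤ) * μ j k) := by
    intro k
    rw [abs_mul, abs_of_nonneg (a := (B0 : ℤ) * μ j k) (by positivity)]
  have he1 : (1 : ℤ) ≤ |e| := Int.one_le_abs hfrj.e0
  have hBμ : ∀ k, (2 * B0 : ℤ) ≤ B0 * μ j k := by
    intro k
    have h2 : (2 : ℤ) ≤ μ j k := by exact_mod_cast (hμ j k).two_le
    have h3 : (0 : ℤ) ≤ B0 := by positivity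
    nlinarith
  have BWj : BW L Θ ρ F 4 i (cs4 (w.δ j) α β) (fun l => e * (B0 * μ j l))
      (Y614.MON.bv (L.x i) (cs4 (w.δ j) α β) (fun l => e * (B0 * μ j l)))
      (wd (w.δ j) (fun l => e * (B0 * μ j l)) α β (L.x i)) :=
    { br := hPL.br
      len := hPL.len
      big := fun k => by
        have h := hPL.big k
        have h4 : (0 : ℤ) ≤ cst L Θ ρ := by positivity
        omega
      up := hPL.up
      per := fun N => by rw [Y614.MON.bv_pow hPL.pc hPL.pf, Y614.MON.bv_wd] }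
  rw [hW] at hinf ⊢
  have hc0 := cst0_le (L := L) Θ ρ
  refine nt_word D K.κ1 hF1 hF2 hS BWj (hu.trans ht0) (by norm_num) K.K1q K.qq ?_ K.hA hinf ?_
  · intro k
    show _ ≤ |e * ((B0 : ℤ) * μ j k)|
    rw [hfk]
    have h1 : (cst L 0 ρ + 2 * (T * (t0 + c)) + T * Θ : ℕ) ≤ B0 := by omega
    have h2 : ((cst L 0 ρ + 2 * (T * (t0 + c)) + T * Θ : ℕ) : ℤ) ≤ B0 := by exact_mod_cast h1
    have h3 := hBμ k
    have h4 : (0 : ℤ) ≤ B0 := by positivity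
    nlinarith
  · intro σ hσ g ε hε hk
    have h1 := hk (4 * q) (Or.inl rfl)
    have h2 := ntdisp L (t := tb H.D c T 1) (by rw [← K.c1e]; exact hX) i u e hfrj.e0 hXe hu K.hK
      hσ (g * Y614.MON.bv (L.x i) (cs4 (w.δ j) α β) (fun l => e * (B0 * μ j l)) (4 * q + 1))
    generalize L.s i (g * Y614.MON.bv (L.x i) (cs4 (w.δ j) α β) (fun l => e * (B0 * μ j l))
      (4 * q + 1)) 1 σ = s at h1 h2
    have h3 : |s| < K1 * |e| := by
      rw [Int.abs_eq_natAbs, Int.abs_eq_natAbs]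
      exact_mod_cast h2
    have h4 : |ε * (e * ((B0 : ℤ) * μ j (4 * q)))| = |e| * ((B0 : ℤ) * μ j (4 * q)) := by
      rw [abs_mul, hfk]
      rcases hε with rfl | rfl <;> norm_num
    have h5 := abs_sub_abs_le_abs_sub (ε * (e * ((B0 : ℤ) * μ j (4 * q)))) s
    rw [abs_sub_comm, h4] at h5
    change |s - ε * (e * ((B0 : ℤ) * μ j (4 * q)))| ≤ _ at h1
    have h6 := hBμ (4 * q)
    have h7 : ((cst L Θ ρ + 2 * (T * (t0 + c)) + 2 * (T * Θ) + K1 : ℕ) : ℤ) < B0 := by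
      exact_mod_cast hB
    have h8 : ((cst L 0 ρ : ℕ) : ℤ) ≤ cst L Θ ρ := by exact_mod_cast hc0
    have h9 : |e| * ((2 * B0 : ℤ)) ≤ |e| * ((B0 : ℤ) * μ j (4 * q)) :=
      mul_le_mul_of_nonneg_left h6 (by positivity)
    have h10 : (0 : ℤ) ≤ B0 := by positivity
    have h11 : (B0 : ℤ) ≤ |e| * B0 := le_mul_of_one_le_left h10 he1
    have h12 : (K1 : ℤ) * |e| ≤ |e| * B0 := by
      rw [mul_comm]
      refine mul_le_mul_of_nonneg_left ?_ (by positivity)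
      push_cast at h7
      have : (0 : ℤ) ≤ cst L Θ ρ + 2 * (T * (t0 + c)) + 2 * (T * Θ) := by positivity
      linarith
    push_cast at h1 h7
    have h13 : (0 : ℤ) ≤ K1 := by positivity
    linarith

/-- the frame of the words `X1` -/
theorem xa_frame (hprim : ∀ i, Prim (L.x i)) (M1 m2 : ℕ) {R0 ρ : ℕ}
    (hρ : R0 + 2 * tb H.D c T (2 * R0 + 2) + 1 ≤ ρ) (hR0 : 1 ≤ R0)
    {a1 b1 : G} (ha : IsOfFinOrder a1) (hsp : Sp H a1) (hb : H.len b1 ≤ R0)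
    (hP : ¬ IsOfFinOrder (P0 M1 a1 b1)) (hsh : L.Short (P0 M1 a1 b1)) :
    ∃ (i : L.ι) (u : G) (e : ℤ), e ≠ 0 ∧ |e| ≤ T * (2 * R0 + 2) + 1 ∧
      H.len u ≤ tb H.D c T (2 * R0 + 2) ∧ H.len (u⁻¹ * a1 * u) ≤ ρ ∧
      u⁻¹ * a1 * u ∉ Subgroup.zpowers (L.x i) ∧
      X1 M1 m2 a1 b1 = u * (u⁻¹ * a1 * u * L.x i ^ (e * m2) * (u⁻¹ * a1 * u)⁻¹ *
        L.x i ^ (-(e * m2))) * u⁻¹ := by
  have hlP : H.len (P0 M1 a1 b1) ≤ 2 * R0 + 2 := by
    unfold P0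
    have h1 := H.len_mul (a1 * b1 * a1 ^ M1) b1⁻¹
    have h2 := H.len_mul (a1 * b1) (a1 ^ M1)
    have h3 := H.len_mul a1 b1
    have h4 : H.len a1 ≤ 1 := by simpa using hsp 1
    have h5 : H.len (a1 ^ M1) ≤ 1 := by simpa using hsp (M1 : ℤ)
    rw [H.len_inv] at h1
    omega
  obtain ⟨i, u, e, hPu, he0, heT, hu⟩ := Y811.MON.frame G H c θ T L (2 * R0 + 2) _ hsh hP hlP
  have hla : H.len a1 ≤ 1 := by simpa using hsp 1
  refine ⟨i, u, e, he0, by exact_mod_cast heT, hu, ?_, ?_, ?_⟩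
  · have := Y914.MON.len_conj H u a1
    omega
  · intro hz
    obtain ⟨k, hk⟩ := Subgroup.mem_zpowers_iff.mp hz
    have hαf : IsOfFinOrder (u⁻¹ * a1 * u) := by
      have h1 := (Y914.MON.fin_conj u⁻¹ a1).mpr ha
      rwa [inv_inv] at h1
    have hk0 : k = 0 := by
      by_contra hk0
      apply (hprim i).1
      rw [← hk] at hαf
      obtain ⟨m, hm, h1⟩ := isOfFinOrder_iff_pow_eq_one.mp hαf
      rw [isOfFinOrder_iff_zpow_eq_one]
      refine ⟨k * m, mul_ne_zero hk0 (by exact_mod_cast hm.ne'), ?_⟩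
      rw [zpow_mul, zpow_natCast]
      exact h1
    rw [hk0, zpow_zero] at hk
    have ha1 : a1 = 1 := by
      have : u⁻¹ * a1 * u = 1 := hk.symm
      calc a1 = u * (u⁻¹ * a1 * u) * u⁻¹ := by group
        _ = 1 := by rw [this]; group
    apply hP
    have : P0 M1 a1 b1 = 1 := by
      unfold P0
      rw [ha1]
      group
    rw [this]
    exact IsOfFinOrder.one
  · have hPm : P0 M1 a1 b1 ^ m2 = u * L.x i ^ (e * m2) * u⁻¹ := by
      rw [hPu, conj_pow, zpow_mul, zpow_natCast]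
    unfold X1
    rw [hPm]
    group

theorem nt_X1 (D : Dat L n E Θ M Q A P) {κ c1 K1 t0 q Te ρ F B0 Λ : ℕ}
    (K : Cts H L Θ A κ c1 K1 t0 q Te ρ F B0)
    {F' : GH (G ⧸ M)} (hF1 : ∀ q, Q.len q ≤ κ * F'.len q)
    (hF2 : ∀ q, κ * F'.len q ≤ Q.len q + (κ - 1)) (hS : Q.Stab Te)
    (hprim : ∀ i, Prim (L.x i)) (hPI : PI H Λ P) (M1 : ℕ) {R0 : ℕ}
    (hρ : R0 + 2 * tb H.D c T (2 * R0 + 2) + 1 ≤ ρ) (hR0 : 1 ≤ R0)
    (ht0 : tb H.D c T (2 * R0 + 2) ≤ t0)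
    (hΛ : cst L Θ ρ + 2 * (T * (t0 + c)) + 2 * (T * Θ) + T * (Λ + 2 * c) + 1 ≤ B0)
    (hF : (T * (2 * R0 + 2) + 1) * B0 ≤ F)
    {a1 b1 : G} (ha : IsOfFinOrder a1) (hsp : Sp H a1) (hb : H.len b1 ≤ R0)
    (hP : ¬ IsOfFinOrder (P0 M1 a1 b1)) (hsh : L.Short (P0 M1 a1 b1))
    (hinf : ¬ IsOfFinOrder ((X1 M1 B0 a1 b1 : G) : G ⧸ M)) :
    NT F' c1 K1 ((fun g : G => (g : G ⧸ M)) '' P) ((X1 M1 B0 a1 b1 : G) : G ⧸ M) := by
  obtain ⟨i, u, e, he0, heT, hu, hα, hαn, hX⟩ := xa_frame (L := L) hprim M1 B0 hρ hR0 ha hsp hb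
    hP hsh
  set α := u⁻¹ * a1 * u with hαd
  obtain ⟨φ, hφ⟩ : ∃ φ : ℤ, φ = e * B0 := ⟨_, rfl⟩
  rw [← hφ] at hX
  have he1 : (1 : ℤ) ≤ |e| := Int.one_le_abs he0
  have hφabs : |φ| = |e| * B0 := by
    rw [hφ, abs_mul, Nat.abs_cast]
  have hφB : (B0 : ℤ) ≤ |φ| := by
    rw [hφabs]
    exact le_mul_of_one_le_left (by positivity) he1
  have hφF : |φ| ≤ F := by
    rw [hφabs]
    have h1 : |e| * (B0 : ℤ) ≤ (T * (2 * R0 + 2) + 1) * B0 :=
      mul_le_mul_of_nonneg_right heT (by positivity)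
    have h2 : (((T * (2 * R0 + 2) + 1) * B0 : ℕ) : ℤ) ≤ F := by exact_mod_cast hF
    push_cast at h2
    linarith
  have hαn' : α⁻¹ ∉ Subgroup.zpowers (L.x i) := by
    intro h
    apply hαn
    have := (Subgroup.zpowers (L.x i)).inv_mem h
    rwa [inv_inv] at this
  have hc0 := cst0_le (L := L) Θ ρ
  have hfabs : ∀ k : ℕ, |if k % 2 = 0 then φ else -φ| = |φ| := by
    intro k
    split_ifs
    · rfl
    · rw [abs_neg]
  have BX : BW L Θ ρ F 2 i (fun k => if k % 2 = 0 then α else α⁻¹)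
      (fun k => if k % 2 = 0 then φ else -φ) (Y655.MON.rv (L.x i) α φ)
      (α * L.x i ^ φ * α⁻¹ * L.x i ^ (-φ)) :=
    { br := ⟨rfl, fun k => rfl, fun k => by
        show (if k % 2 = 0 then α else α⁻¹) ∉ _
        split_ifs
        · exact hαn
        · exact hαn'⟩
      len := fun k => by
        show H.len (if k % 2 = 0 then α else α⁻¹) ≤ ρ
        split_ifs
        · exact hα
        · rw [H.len_inv]
          exact hα
      big := fun k => by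
        show (cst L Θ ρ : ℤ) < |if k % 2 = 0 then φ else -φ|
        rw [hfabs]
        have h1 : cst L Θ ρ < B0 := by omega
        have h2 : (cst L Θ ρ : ℤ) < B0 := by exact_mod_cast h1
        linarith
      up := fun k => by
        show |if k % 2 = 0 then φ else -φ| ≤ F
        rw [hfabs]
        exact hφF
      per := fun N => Y655.MON.rv_even _ _ _ N }
  rw [hX] at hinf ⊢
  refine nt_word D K.κ1 hF1 hF2 hS BX (hu.trans ht0) (by norm_num) K.K1q K.qq ?_ K.hA hinf ?_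
  · intro k
    show _ ≤ |if k % 2 = 0 then φ else -φ|
    rw [hfabs]
    refine le_trans ?_ hφB
    have h1 : (cst L 0 ρ + 2 * (T * (t0 + c)) + T * Θ : ℕ) ≤ B0 := by omega
    exact_mod_cast h1
  · intro σ hσ g ε hε hk
    have h1 := hk (2 * q) (Or.inl rfl)
    have h2 := hk (2 * q + 1) (Or.inr rfl)
    change |L.s i (g * Y655.MON.rv (L.x i) α φ (2 * q + 1)) 1 σ -
      ε * (if (2 * q) % 2 = 0 then φ else -φ)| ≤ _ at h1
    change |L.s i (g * Y655.MON.rv (L.x i) α φ (2 * q + 1 + 1)) 1 σ -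
      ε * (if (2 * q + 1) % 2 = 0 then φ else -φ)| ≤ _ at h2
    rw [if_pos (by omega)] at h1
    rw [if_neg (by omega)] at h2
    obtain ⟨C', hC'⟩ : ∃ C', C' = cst L 0 ρ + 2 * (T * (t0 + c)) + 2 * (T * Θ) := ⟨_, rfl⟩
    rw [← hC'] at h1 h2
    have h4 : (B0 : ℤ) ≤ |ε * φ| := by
      rw [abs_mul]
      rcases hε with rfl | rfl <;> simpa using hφB
    obtain ⟨B1, hB1⟩ : ∃ B1, B1 = T * (Λ + 2 * c) + 1 := ⟨_, rfl⟩
    have h5 : (C' + B1 : ℤ) ≤ B0 := by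
      have : C' + B1 ≤ B0 := by omega
      exact_mod_cast this
    have e1 : ε * -φ = -(ε * φ) := by ring
    rw [e1] at h2
    rw [abs_le] at h1 h2
    obtain ⟨h1, h1'⟩ := h1
    obtain ⟨h2, h2'⟩ := h2
    rcases le_total 0 (ε * φ) with h6 | h6
    · rw [abs_of_nonneg h6] at h4
      exact opp L hPI (B1 := B1) (by omega) i hσ hσ _ _
        (show (B1 : ℤ) ≤ L.s i (g * Y655.MON.rv (L.x i) α φ (2 * q + 1)) 1 σ by linarith)
        (show L.s i (g * Y655.MON.rv (L.x i) α φ (2 * q + 1 + 1)) 1 σ ≤ -(B1 : ℤ) by linarith)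
    · rw [abs_of_nonpos h6] at h4
      exact opp L hPI (B1 := B1) (by omega) i hσ hσ _ _
        (show (B1 : ℤ) ≤ L.s i (g * Y655.MON.rv (L.x i) α φ (2 * q + 1 + 1)) 1 σ by linarith)
        (show L.s i (g * Y655.MON.rv (L.x i) α φ (2 * q + 1)) 1 σ ≤ -(B1 : ℤ) by linarith)

end Pool.Agent.H319.FS
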